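import Pool.Agent.T2h80.TL.Count
import Pool.Agent.Y159.QS.Fin

set_option autoImplicit false

/-! Torsion of the class group and ideals of small norm; a weighted average of the torsion. -/

namespace Pool.Agent.T2h80.TL

open NumberField Finset Pool.Agent.Y159.QS
open scoped nonZeroDivisors

section field

variable {K : Type} [Field K] [NumberField K]

theorem pow_class {l : ℕ} {I : Ideal (𝓞 K)} (hI : I ≠ ⊥) {β : 𝓞 K} (h : I ^ l = Ideal.span {β}) :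
    (ClassGroup.mk0 ⟨I, mem_nonZeroDivisors_of_ne_zero hI⟩ : ClassGroup (𝓞 K)) ^ l = 1 := by
  rw [← map_pow]
  exact (ClassGroup.mk0_eq_one_iff _).mpr ⟨β, h⟩

theorem ne_bot_of_norm {I : Ideal (𝓞 K)} (h : Squarefree (Ideal.absNorm I)) : I ≠ ⊥ := by
  rintro rfl
  rw [Ideal.absNorm_bot] at h
  exact h.ne_zero rfl

/-- large discriminants -/
theorem field_large (hK : Module.finrank ℚ K = 2) (hD : discr K < 0) {l N : ℕ} (hN1 : 1 ≤ N)
    (hN : (4 * (N * N) : ℤ) < - discr K) (𝒜 : Finset (Ideal (𝓞 K)))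
    (h𝒜 : ∀ I ∈ 𝒜, Squarefree (Ideal.absNorm I) ∧ 1 < Ideal.absNorm I ∧ Ideal.absNorm I ≤ N ∧
      ∃ β : 𝓞 K, I ^ l = Ideal.span {β}) :
    𝒜.card + 1 ≤ Nat.card {c : ClassGroup (𝓞 K) // c ^ l = 1} := by
  classical
  have h1 : (1 : Ideal (𝓞 K)) ∉ 𝒜 := by
    intro h
    have := (h𝒜 _ h).2.1
    rw [map_one] at this
    exact lt_irrefl _ this
  have hall : ∀ I ∈ insert (1 : Ideal (𝓞 K)) 𝒜, Squarefree (Ideal.absNorm I) ∧
      Ideal.absNorm I ≤ N ∧ ∃ β : 𝓞 K, I ^ l = Ideal.span {β} := by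
    intro I hI
    rcases mem_insert.mp hI with rfl | hI
    · rw [map_one]
      refine ⟨squarefree_one, hN1, 1, ?_⟩
      rw [one_pow, Ideal.span_singleton_one, Ideal.one_eq_top]
    · obtain ⟨a, -, b, c⟩ := h𝒜 I hI
      exact ⟨a, b, c⟩
  rw [← card_insert_of_notMem h1, Nat.card_eq_fintype_card, ← Finset.card_univ]
  refine card_le_card_of_injOn (fun I => if hI : I ∈ insert (1 : Ideal (𝓞 K)) 𝒜 then
    ⟨ClassGroup.mk0 ⟨I, mem_nonZeroDivisors_of_ne_zero (ne_bot_of_norm (hall I hI).1)⟩, by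
      obtain ⟨β, hβ⟩ := (hall I hI).2.2
      exact pow_class (ne_bot_of_norm (hall I hI).1) hβ⟩ else ⟨1, one_pow l⟩)
    (fun _ _ => mem_univ _) ?_
  intro I hI J hJ h
  rw [Finset.mem_coe] at hI hJ
  simp only [dif_pos hI, dif_pos hJ, Subtype.mk.injEq] at h
  refine small_distinct hK hD (ne_bot_of_norm (hall I hI).1) (ne_bot_of_norm (hall J hJ).1)
    (hall I hI).1 (hall J hJ).1 ?_ h
  have h2 : Ideal.absNorm I * Ideal.absNorm J ≤ N * N :=
    Nat.mul_le_mul (hall I hI).2.1 (hall J hJ).2.1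
  have h3 : ((Ideal.absNorm I * Ideal.absNorm J : ℕ) : ℤ) ≤ ((N * N : ℕ) : ℤ) := by exact_mod_cast h2
  push_cast at h3 ⊢
  linarith

/-- small discriminants -/
theorem field_small (hK : Module.finrank ℚ K = 2) (hD : discr K < 0) {l A : ℕ}
    (𝒜 : Finset (Ideal (𝓞 K)))
    (h𝒜 : ∀ I ∈ 𝒜, Squarefree (Ideal.absNorm I) ∧ A < Ideal.absNorm I ∧ Ideal.absNorm I ≤ 16 * A ∧
      ∃ β : 𝓞 K, I ^ l = Ideal.span {β}) (κ : ℕ)
    (hκ : (32 * A : ℤ) ^ 2 < - discr K * (κ + 1) ^ 2) :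
    𝒜.card ≤ Nat.card {c : ClassGroup (𝓞 K) // c ^ l = 1} * ((2 * κ + 1) * 33) := by
  classical
  let f : Ideal (𝓞 K) → ClassGroup (𝓞 K) := fun I => if hI : I ≠ ⊥ then
    ClassGroup.mk0 ⟨I, mem_nonZeroDivisors_of_ne_zero hI⟩ else 1
  have hf : ∀ I ∈ 𝒜, f I ∈ (univ : Finset (ClassGroup (𝓞 K))).filter (fun c => c ^ l = 1) := by
    intro I hI
    obtain ⟨a, -, -, β, hβ⟩ := h𝒜 I hI
    rw [mem_filter]
    refine ⟨mem_univ _, ?_⟩
    simp only [f, dif_pos (ne_bot_of_norm a)]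
    exact pow_class (ne_bot_of_norm a) hβ
  have hcard : Nat.card {c : ClassGroup (𝓞 K) // c ^ l = 1} =
      ((univ : Finset (ClassGroup (𝓞 K))).filter (fun c => c ^ l = 1)).card := by
    rw [Nat.card_eq_fintype_card, Fintype.card_subtype]
  rw [hcard, mul_comm]
  apply card_le_mul_card_image_of_maps_to hf
  intro c _
  apply class_count hK hD (A := A) _ _ c _ κ hκ
  · intro I hI
    obtain ⟨a, b, c, -⟩ := h𝒜 I (mem_filter.mp hI).1
    exact ⟨a, b, c⟩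
  · intro I hI
    obtain ⟨h1, h2⟩ := mem_filter.mp hI
    have h3 := ne_bot_of_norm (h𝒜 I h1).1
    refine ⟨h3, ?_⟩
    rw [← h2]
    simp only [f, dif_pos h3]

end field

theorem geom_le' {a : ℝ} (ha : 5 / 4 ≤ a) : ∀ J : ℕ, ∑ j ∈ Finset.range (J + 1), a ^ j ≤ 5 * a ^ J := by
  intro J
  induction J with
  | zero => simp
  | succ J ih =>
    rw [sum_range_succ]
    have h1 : 0 ≤ a ^ J := by positivity
    calc ∑ j ∈ range (J + 1), a ^ j + a ^ (J + 1) ≤ 5 * a ^ J + a ^ (J + 1) := by linarith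
      _ = a ^ J * (5 + a) := by ring
      _ ≤ a ^ J * (5 * a) := by gcongr; linarith
      _ = 5 * a ^ (J + 1) := by ring

/-- the average of the torsion, weighted with `1 / √|D|` -/
theorem tor_div (l : ℕ) (hl : 4 ≤ l) (ε : ℝ) (hε : 0 < ε) : ∃ C : ℝ, 0 < C ∧ ∀ X : ℝ, 1 ≤ X →
    ∀ (S : Finset ℤ) (K : ℤ → Type) [∀ D, Field (K D)] [∀ D, NumberField (K D)],
    (∀ D ∈ S, |(D : ℝ)| ≤ X ∧ Module.finrank ℚ (K D) = 2 ∧ NumberField.discr (K D) = D) →
    ∑ D ∈ S, (Nat.card {c : ClassGroup (𝓞 (K D)) // c ^ l = 1} : ℝ) / √|(D : ℝ)| ≤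
      C * X ^ (1 - 3 / (2 * (l + 1)) + ε : ℝ) := by
  obtain ⟨C, hC0, hC⟩ := full l 1 le_rfl (by omega) ε hε
  set θ : ℝ := 1 - 3 / (2 * (l + 1)) + ε with hθ
  refine ⟨C * 2 ^ (θ + 1 / 2) * 5, by positivity, ?_⟩
  intro X hX S K _ _ hS
  have hll : (4 : ℝ) ≤ l := by exact_mod_cast hl
  have hθ1 : 1 / 2 ≤ θ := by
    have h1 : 3 / (2 * ((l : ℝ) + 1)) ≤ 1 / 2 := by
      rw [div_le_div_iff₀ (by positivity) (by norm_num)]
      linarith
    rw [hθ]; linarith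
  have hX0 : 0 < X := by linarith
  set T : ℤ → ℝ := fun D => (Nat.card {c : ClassGroup (𝓞 (K D)) // c ^ l = 1} : ℝ) with hT
  set J : ℕ := Nat.log 2 ⌊X⌋₊ with hJ
  have hX1 : 1 ≤ ⌊X⌋₊ := Nat.le_floor (by exact_mod_cast hX)
  have hmaps : ∀ D ∈ S, Nat.log 2 D.natAbs ∈ Finset.range (J + 1) := by
    intro D hD
    rw [mem_range, Nat.lt_succ_iff, hJ]
    apply Nat.log_mono_right
    apply Nat.le_floor
    rw [Nat.cast_natAbs, Int.cast_abs]
    exact (hS D hD).1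
  have hblock : ∀ j ∈ Finset.range (J + 1),
      ∑ D ∈ S.filter (fun D => Nat.log 2 D.natAbs = j), T D / √|(D : ℝ)| ≤
        C * 2 ^ (θ + 1 / 2) * ((2 : ℝ) ^ θ) ^ j := by
    intro j _
    set x : ℝ := (2 : ℝ) ^ j with hx
    have hx1 : 1 ≤ x := one_le_pow₀ (by norm_num)
    have hx0 : 0 < x := by positivity
    have hD' : ∀ D ∈ S.filter (fun D => Nat.log 2 D.natAbs = j), x ≤ |(D : ℝ)| ∧
        |(D : ℝ)| ≤ 2 * x := by
      intro D hD
      rw [mem_filter] at hD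
      obtain ⟨hDS, hDj⟩ := hD
      obtain ⟨-, h4, h5⟩ := hS D hDS
      have hDne : D.natAbs ≠ 0 := by
        rw [← h5]
        exact Int.natAbs_ne_zero.mpr (NumberField.discr_ne_zero _)
      have h6 : |(D : ℝ)| = (D.natAbs : ℝ) := by rw [Nat.cast_natAbs, Int.cast_abs]
      constructor
      · rw [h6, hx, ← hDj]
        exact_mod_cast Nat.pow_log_le_self 2 hDne
      · have h7 := Nat.lt_pow_succ_log_self (b := 2) (by norm_num) D.natAbs
        rw [hDj] at h7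
        rw [h6, hx]
        have h8 : (D.natAbs : ℝ) ≤ (2 : ℝ) ^ (j + 1) := by exact_mod_cast h7.le
        rw [pow_succ] at h8
        linarith
    have h3 := hC (2 * x) (by linarith) (S.filter (fun D => Nat.log 2 D.natAbs = j)) K (by
      intro D hD
      refine ⟨(hD' D hD).2, (hS D (mem_filter.mp hD).1).2⟩)
    calc ∑ D ∈ S.filter (fun D => Nat.log 2 D.natAbs = j), T D / √|(D : ℝ)|
        ≤ ∑ D ∈ S.filter (fun D => Nat.log 2 D.natAbs = j), T D ^ 1 / √x := by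
          apply sum_le_sum
          intro D hD
          rw [pow_one]
          apply div_le_div_of_nonneg_left (by positivity) (Real.sqrt_pos.mpr hx0)
          exact Real.sqrt_le_sqrt (hD' D hD).1
      _ = (∑ D ∈ S.filter (fun D => Nat.log 2 D.natAbs = j), T D ^ 1) / √x := by rw [Finset.sum_div]
      _ ≤ C * (2 * x) ^ (1 + (1 : ℕ) / 2 - 3 * (1 : ℕ) / (2 * (l + (1 : ℕ))) + ε : ℝ) / √x := by
          gcongr
      _ = C * 2 ^ (θ + 1 / 2) * ((2 : ℝ) ^ θ) ^ j := by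
          have e0 : (1 + ((1 : ℕ) : ℝ) / 2 - 3 * ((1 : ℕ) : ℝ) / (2 * (l + ((1 : ℕ) : ℝ))) + ε : ℝ) =
              θ + 1 / 2 := by rw [hθ]; push_cast; ring
          rw [e0, Real.mul_rpow (by norm_num) hx0.le, Real.rpow_add hx0 θ, Real.sqrt_eq_rpow]
          have e1 : x ^ θ = ((2 : ℝ) ^ θ) ^ j := by
            rw [hx, ← Real.rpow_natCast 2 j, ← Real.rpow_mul (by norm_num), mul_comm (j : ℝ),
              Real.rpow_mul (by norm_num), Real.rpow_natCast]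
          rw [e1]
          have e2 : (0 : ℝ) < x ^ (1 / 2 : ℝ) := Real.rpow_pos_of_pos hx0 _
          field_simp
  have h2θ : (5 / 4 : ℝ) ≤ 2 ^ θ := by
    calc (5 / 4 : ℝ) ≤ √2 := by
          apply Real.le_sqrt_of_sq_le; norm_num
      _ = 2 ^ (1 / 2 : ℝ) := Real.sqrt_eq_rpow 2
      _ ≤ 2 ^ θ := Real.rpow_le_rpow_of_exponent_le (by norm_num) hθ1
  calc ∑ D ∈ S, T D / √|(D : ℝ)|
      = ∑ j ∈ Finset.range (J + 1), ∑ D ∈ S.filter (fun D => Nat.log 2 D.natAbs = j),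
          T D / √|(D : ℝ)| := (Finset.sum_fiberwise_of_maps_to hmaps _).symm
    _ ≤ ∑ j ∈ Finset.range (J + 1), C * 2 ^ (θ + 1 / 2) * ((2 : ℝ) ^ θ) ^ j :=
        Finset.sum_le_sum hblock
    _ = C * 2 ^ (θ + 1 / 2) * ∑ j ∈ Finset.range (J + 1), ((2 : ℝ) ^ θ) ^ j := by
        rw [Finset.mul_sum]
    _ ≤ C * 2 ^ (θ + 1 / 2) * (5 * ((2 : ℝ) ^ θ) ^ J) := by
        have := geom_le' h2θ J
        gcongr
    _ ≤ C * 2 ^ (θ + 1 / 2) * (5 * X ^ θ) := by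
        have h1 : ((2 : ℝ) ^ θ) ^ J ≤ X ^ θ := by
          rw [← Real.rpow_natCast, ← Real.rpow_mul (by norm_num), mul_comm θ,
            Real.rpow_mul (by norm_num), Real.rpow_natCast]
          apply Real.rpow_le_rpow (by positivity) _ (by linarith)
          have h2 : 2 ^ J ≤ ⌊X⌋₊ := Nat.pow_log_le_self 2 (by omega)
          have h3 : ((2 ^ J : ℕ) : ℝ) ≤ ⌊X⌋₊ := by exact_mod_cast h2
          push_cast at h3
          exact h3.trans (Nat.floor_le hX0.le)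
        gcongr
    _ = C * 2 ^ (θ + 1 / 2) * 5 * X ^ θ := by ring

end Pool.Agent.T2h80.TL
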