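import Mathlib

set_option autoImplicit false

/-! Elementary arithmetic: square roots modulo squares of primes, counting. -/

namespace Pool.Agent.T2h80.TL

open Finset

/-- a square root modulo the square of an odd prime -/
theorem root_sq {ℓ : ℕ} (hℓ : ℓ.Prime) (hℓ2 : ℓ ≠ 2) {n a : ℤ} (ha : (ℓ : ℤ) ∣ a ^ 2 - n)
    (hn : ¬ (ℓ : ℤ) ∣ n) : ∃ ν : ℤ, (ℓ : ℤ) ^ 2 ∣ ν ^ 2 - n := by
  have hp : Prime (ℓ : ℤ) := Nat.prime_iff_prime_int.mp hℓ
  have h2a : ¬ (ℓ : ℤ) ∣ 2 * a := by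
    intro h
    rcases hp.dvd_or_dvd h with h | h
    · have h1 : (ℓ : ℤ) ≤ 2 := Int.le_of_dvd (by norm_num) h
      have h2 := hℓ.two_le
      have : ℓ = 2 := by omega
      exact hℓ2 this
    · apply hn
      have : n = a * a - (a ^ 2 - n) := by ring
      rw [this]
      exact dvd_sub (h.mul_left _) ha
  obtain ⟨b, c, hbc⟩ : ∃ b c : ℤ, b * (2 * a) + c * ℓ = 1 := by
    have hcop : IsCoprime (2 * a) (ℓ : ℤ) := ((Prime.coprime_iff_not_dvd hp).mpr h2a).symm
    obtain ⟨u, v, huv⟩ := hcop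
    exact ⟨u, v, huv⟩
  obtain ⟨k, hk⟩ := ha
  refine ⟨a - (a ^ 2 - n) * b, ?_⟩
  have e : (a - (a ^ 2 - n) * b) ^ 2 - n = (ℓ : ℤ) ^ 2 * (k * c + b ^ 2 * k ^ 2) := by
    have h1 : (a - (a ^ 2 - n) * b) ^ 2 - n =
      (a ^ 2 - n) * (1 - b * (2 * a)) + b ^ 2 * (a ^ 2 - n) ^ 2 := by ring
    rw [h1, hk]
    have h2 : 1 - b * (2 * a) = c * ℓ := by linarith
    rw [h2]; ring
  rw [e]
  exact dvd_mul_right _ _

/-- at most two primes above `L` have a square dividing `M < L ^ 6` -/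
theorem few_squares {L M : ℕ} (hM : 0 < M) (hML : M < L ^ 6) (S : Finset ℕ)
    (hS : ∀ ℓ ∈ S, ℓ.Prime ∧ L < ℓ ∧ ℓ ^ 2 ∣ M) : S.card ≤ 2 := by
  by_contra hcon
  rw [not_le] at hcon
  obtain ⟨T, hTS, hT3⟩ := Finset.exists_subset_card_eq (show 3 ≤ S.card by omega)
  have hprod : (∏ ℓ ∈ T, ℓ ^ 2) ∣ M := by
    apply Finset.prod_dvd_of_isRelPrime
    · intro a ha b hb hab
      have h := (Nat.coprime_primes (hS a (hTS ha)).1 (hS b (hTS hb)).1).mpr hab
      exact Nat.coprime_iff_isRelPrime.mp (Nat.Coprime.pow 2 2 h)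
    · intro a ha
      exact (hS a (hTS ha)).2.2
  have h1 : L ^ 6 ≤ ∏ ℓ ∈ T, ℓ ^ 2 := by
    calc L ^ 6 = ∏ ℓ ∈ T, L ^ 2 := by rw [Finset.prod_const, hT3]; ring
      _ ≤ ∏ ℓ ∈ T, ℓ ^ 2 := by
          apply Finset.prod_le_prod'
          intro ℓ hℓ
          exact Nat.pow_le_pow_left (hS ℓ (hTS hℓ)).2.1.le 2
  have h2 := Nat.le_of_dvd hM hprod
  omega

/-- a prime not dividing `m` divides at most one of the numbers `r + m j` with `j` in a window
of length `≤ q` -/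
theorem prog_inj {q m r j j' : ℕ} (hq : q.Prime) (hqm : ¬ q ∣ m) (h : q ∣ r + m * j)
    (h' : q ∣ r + m * j') (hjj : j < j') : q ≤ j' - j := by
  have h1 : q ∣ m * (j' - j) := by
    have : m * (j' - j) = (r + m * j') - (r + m * j) := by
      rw [Nat.mul_sub]; omega
    rw [this]
    exact Nat.dvd_sub h' h
  have h2 : q ∣ j' - j := (hq.dvd_mul.mp h1).resolve_left hqm
  exact Nat.le_of_dvd (by omega) h2

/-- many elements of a residue class are coprime to the product of two primes -/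
theorem count_prog {q₁ q₂ m r I : ℕ} (hq₁ : q₁.Prime) (hq₂ : q₂.Prime) (h1 : 3 ≤ q₁) (h2 : 3 ≤ q₂)
    (hm1 : ¬ q₁ ∣ m) (hm2 : ¬ q₂ ∣ m) (hm : 0 < m) (hr : r < m) :
    I ≤ ((range (3 * m * I)).filter (fun x => x % m = r ∧ Nat.Coprime x (q₁ * q₂))).card := by
  have key : ∀ i : ℕ, ∃ x : ℕ, 3 * m * i ≤ x ∧ x < 3 * m * (i + 1) ∧ x % m = r ∧
      Nat.Coprime x (q₁ * q₂) := by
    intro i
    have hmod : ∀ j : ℕ, (r + m * (3 * i + j)) % m = r := by
      intro j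
      rw [Nat.add_mul_mod_self_left, Nat.mod_eq_of_lt hr]
    have hlo : ∀ j : ℕ, 3 * m * i ≤ r + m * (3 * i + j) := by
      intro j
      have : 3 * m * i = m * (3 * i) := by ring
      rw [this]
      have : m * (3 * i) ≤ m * (3 * i + j) := Nat.mul_le_mul_left _ (by omega)
      omega
    have hhi : ∀ j : ℕ, j ≤ 2 → r + m * (3 * i + j) < 3 * m * (i + 1) := by
      intro j hj
      have h3 : 3 * m * (i + 1) = m * (3 * i + 3) := by ring
      rw [h3]
      have h4 : m * (3 * i + j) + m ≤ m * (3 * i + 3) := by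
        rw [← Nat.mul_succ]
        exact Nat.mul_le_mul_left _ (by omega)
      omega
    have hcop : ∀ x : ℕ, ¬ q₁ ∣ x → ¬ q₂ ∣ x → Nat.Coprime x (q₁ * q₂) := by
      intro x hx1 hx2
      exact Nat.Coprime.mul_right ((Nat.Prime.coprime_iff_not_dvd hq₁).mpr hx1).symm
        ((Nat.Prime.coprime_iff_not_dvd hq₂).mpr hx2).symm
    have bad1 : ∀ j j' : ℕ, j < j' → j' ≤ 2 → q₁ ∣ r + m * (3 * i + j) →
        q₁ ∣ r + m * (3 * i + j') → False := by
      intro j j' hjj hj' ha hb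
      have := prog_inj hq₁ hm1 ha hb (by omega)
      omega
    have bad2 : ∀ j j' : ℕ, j < j' → j' ≤ 2 → q₂ ∣ r + m * (3 * i + j) →
        q₂ ∣ r + m * (3 * i + j') → False := by
      intro j j' hjj hj' ha hb
      have := prog_inj hq₂ hm2 ha hb (by omega)
      omega
    by_contra hcon
    push Not at hcon
    have hz : ∀ j : ℕ, j ≤ 2 → q₁ ∣ r + m * (3 * i + j) ∨ q₂ ∣ r + m * (3 * i + j) := by
      intro j hj
      by_contra h
      push Not at h
      exact hcon _ (hlo j) (hhi j hj) (hmod j) (hcop _ h.1 h.2)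
    rcases hz 0 (by omega) with a0 | a0 <;> rcases hz 1 (by omega) with a1 | a1 <;>
      rcases hz 2 (by omega) with a2 | a2
    · exact bad1 0 1 (by omega) (by omega) a0 a1
    · exact bad1 0 1 (by omega) (by omega) a0 a1
    · exact bad1 0 2 (by omega) (by omega) a0 a2
    · exact bad2 1 2 (by omega) (by omega) a1 a2
    · exact bad1 1 2 (by omega) (by omega) a1 a2
    · exact bad2 0 2 (by omega) (by omega) a0 a2
    · exact bad2 0 1 (by omega) (by omega) a0 a1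
    · exact bad2 0 1 (by omega) (by omega) a0 a1
  choose f hf1 hf2 hf3 hf4 using key
  have hinj : Set.InjOn f (range I : Set ℕ) := by
    intro i _ i' _ h
    by_contra hne
    rcases Nat.lt_or_gt_of_ne hne with hlt | hlt
    · have h3 : 3 * m * (i + 1) ≤ 3 * m * i' := Nat.mul_le_mul_left _ (by omega)
      have := hf2 i; have := hf1 i'
      omega
    · have h3 : 3 * m * (i' + 1) ≤ 3 * m * i := Nat.mul_le_mul_left _ (by omega)
      have := hf2 i'; have := hf1 i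
      omega
  calc I = (range I).card := (card_range I).symm
    _ = ((range I).image f).card := (card_image_of_injOn hinj).symm
    _ ≤ _ := by
        apply card_le_card
        intro x hx
        obtain ⟨i, hi, rfl⟩ := mem_image.mp hx
        rw [mem_range] at hi
        rw [mem_filter, mem_range]
        refine ⟨lt_of_lt_of_le (hf2 i) (Nat.mul_le_mul_left _ (by omega)), hf3 i, hf4 i⟩

/-- one of the two classes (residues, non-residues) contains half of the primes -/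
theorem qr_pairs {ℓ : ℕ} [Fact ℓ.Prime] (P : Finset ℕ) (hP : ∀ q ∈ P, q.Prime ∧ q ≠ ℓ) :
    ∃ A ⊆ P, P.card ≤ 2 * A.card ∧ ∀ q₁ ∈ A, ∀ q₂ ∈ A, legendreSym ℓ ((q₁ * q₂ : ℕ) : ℤ) = 1 := by
  classical
  have hne : ∀ q ∈ P, ((q : ℤ) : ZMod ℓ) ≠ 0 := by
    intro q hq
    obtain ⟨h1, h2⟩ := hP q hq
    rw [Int.cast_natCast, Ne, ZMod.natCast_eq_zero_iff]
    intro h
    exact h2 ((Nat.prime_dvd_prime_iff_eq Fact.out h1).mp h).symm
  have hval : ∀ q ∈ P, legendreSym ℓ q = 1 ∨ legendreSym ℓ q = -1 := fun q hq =>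
    legendreSym.eq_one_or_neg_one ℓ (hne q hq)
  have hcard : (P.filter (fun q : ℕ => legendreSym ℓ q = 1)).card +
      (P.filter (fun q : ℕ => ¬ legendreSym ℓ q = 1)).card = P.card :=
    card_filter_add_card_filter_not _
  rcases le_total (P.filter (fun q : ℕ => legendreSym ℓ q = 1)).card
    (P.filter (fun q : ℕ => ¬ legendreSym ℓ q = 1)).card with h | h
  · refine ⟨P.filter (fun q : ℕ => ¬ legendreSym ℓ q = 1), filter_subset _ _, by omega, ?_⟩
    intro q₁ h1 q₂ h2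
    rw [mem_filter] at h1 h2
    have e1 := (hval q₁ h1.1).resolve_left h1.2
    have e2 := (hval q₂ h2.1).resolve_left h2.2
    rw [Nat.cast_mul, legendreSym.mul, e1, e2]; norm_num
  · refine ⟨P.filter (fun q : ℕ => legendreSym ℓ q = 1), filter_subset _ _, by omega, ?_⟩
    intro q₁ h1 q₂ h2
    rw [mem_filter] at h1 h2
    rw [Nat.cast_mul, legendreSym.mul, h1.2, h2.2]; norm_num

/-- the fundamental discriminant attached to `-d` -/
theorem fund_part {d : ℕ} (hd : 0 < d) : ∃ (D : ℤ) (g : ℕ), 0 < g ∧ D < 0 ∧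
    D * (g : ℤ) ^ 2 = -(4 * d) ∧ ((D % 4 = 1 ∧ D ≠ 1 ∧ Squarefree D) ∨
      (∃ m : ℤ, D = 4 * m ∧ (m % 4 = 2 ∨ m % 4 = 3) ∧ Squarefree m)) := by
  obtain ⟨d0, f, hd0, hf, hdf, hsq⟩ : ∃ d0 f : ℕ, 0 < d0 ∧ 0 < f ∧ f ^ 2 * d0 = d ∧
      Squarefree d0 := by
    obtain ⟨a, b, ha, hb, hab, hs⟩ := Nat.sq_mul_squarefree_of_pos hd
    exact ⟨a, b, ha, hb, hab, hs⟩
  have hsqi : Squarefree (-(d0 : ℤ)) := by
    rw [← Int.squarefree_natAbs]
    simpa using hsq
  have h4 : ¬ 4 ∣ d0 := by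
    intro h
    have := hsq 2 (by simpa using h)
    simp at this
  by_cases h3 : d0 % 4 = 3
  · refine ⟨-(d0 : ℤ), 2 * f, by omega, by omega, ?_, Or.inl ⟨by omega, by omega, hsqi⟩⟩
    rw [← hdf]; push_cast; ring
  · refine ⟨4 * (-(d0 : ℤ)), f, hf, by omega, ?_, Or.inr ⟨-(d0 : ℤ), rfl, by omega, hsqi⟩⟩
    rw [← hdf]; push_cast; ring

end Pool.Agent.T2h80.TL
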