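import Pool.Agent.T2h80.TL.Main
import Pool.Agent.H440R2.Cheb
import Pool.Agent.Lib.helper27.WPNT

set_option autoImplicit false

/-! The choice of the parameters. -/

namespace Pool.Agent.T2h80.TL

open NumberField Finset Filter
open scoped nonZeroDivisors Classical Topology

/-- dyadic decomposition -/
theorem dyadic {τ C X : ℝ} (hτ : 1 ≤ τ) (hC : 0 ≤ C) (hX : 1 ≤ X) (S : Finset ℤ) (T : ℤ → ℝ)
    (hT : ∀ D ∈ S, 0 ≤ T D) (h0 : ∀ D ∈ S, D ≠ 0) (hS : ∀ D ∈ S, |(D : ℝ)| ≤ X)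
    (h : ∀ Y : ℝ, 1 ≤ Y → ∑ D ∈ S.filter (fun D : ℤ => |(D : ℝ)| ≤ Y), T D ≤ C * Y ^ τ) :
    ∑ D ∈ S, T D / √|(D : ℝ)| ≤ C * 2 ^ τ * 5 * X ^ (τ - 1 / 2) := by
  have hX0 : 0 < X := by linarith
  set J : ℕ := Nat.log 2 ⌊X⌋₊ with hJ
  have hX1 : 1 ≤ ⌊X⌋₊ := Nat.le_floor (by exact_mod_cast hX)
  have hmaps : ∀ D ∈ S, Nat.log 2 D.natAbs ∈ Finset.range (J + 1) := by
    intro D hD
    rw [mem_range, Nat.lt_succ_iff, hJ]
    apply Nat.log_mono_right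
    apply Nat.le_floor
    rw [Nat.cast_natAbs, Int.cast_abs]
    exact hS D hD
  have hblock : ∀ j ∈ Finset.range (J + 1),
      ∑ D ∈ S.filter (fun D => Nat.log 2 D.natAbs = j), T D / √|(D : ℝ)| ≤
        C * 2 ^ τ * ((2 : ℝ) ^ (τ - 1 / 2)) ^ j := by
    intro j _
    set x : ℝ := (2 : ℝ) ^ j with hx
    have hx1 : 1 ≤ x := one_le_pow₀ (by norm_num)
    have hx0 : 0 < x := by positivity
    have hD' : ∀ D ∈ S.filter (fun D => Nat.log 2 D.natAbs = j), x ≤ |(D : ℝ)| ∧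
        |(D : ℝ)| ≤ 2 * x := by
      intro D hD
      rw [mem_filter] at hD
      obtain ⟨hDS, hDj⟩ := hD
      have hDne : D.natAbs ≠ 0 := Int.natAbs_ne_zero.mpr (h0 D hDS)
      have h6 : |(D : ℝ)| = (D.natAbs : ℝ) := by rw [Nat.cast_natAbs, Int.cast_abs]
      constructor
      · rw [h6, hx, ← hDj]
        exact_mod_cast Nat.pow_log_le_self 2 hDne
      · have h7 := Nat.lt_pow_succ_log_self (b := 2) (by norm_num) D.natAbs
        rw [hDj] at h7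
        rw [h6, hx]
        have h8 : (D.natAbs : ℝ) ≤ (2 : ℝ) ^ (j + 1) := by exact_mod_cast h7.le
        rw [pow_succ] at h8
        linarith
    calc ∑ D ∈ S.filter (fun D => Nat.log 2 D.natAbs = j), T D / √|(D : ℝ)|
        ≤ ∑ D ∈ S.filter (fun D => Nat.log 2 D.natAbs = j), T D / √x := by
          apply sum_le_sum
          intro D hD
          apply div_le_div_of_nonneg_left (hT D (mem_filter.mp hD).1) (Real.sqrt_pos.mpr hx0)
          exact Real.sqrt_le_sqrt (hD' D hD).1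
      _ = (∑ D ∈ S.filter (fun D => Nat.log 2 D.natAbs = j), T D) / √x := by rw [Finset.sum_div]
      _ ≤ (∑ D ∈ S.filter (fun D : ℤ => |(D : ℝ)| ≤ 2 * x), T D) / √x := by
          apply div_le_div_of_nonneg_right _ (Real.sqrt_nonneg _)
          apply sum_le_sum_of_subset_of_nonneg
          · intro D hD
            rw [mem_filter]
            exact ⟨(mem_filter.mp hD).1, (hD' D hD).2⟩
          · intro D hD _
            exact hT D (mem_filter.mp hD).1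
      _ ≤ (C * (2 * x) ^ τ) / √x := by
          gcongr
          exact h (2 * x) (by linarith)
      _ = C * 2 ^ τ * ((2 : ℝ) ^ (τ - 1 / 2)) ^ j := by
          rw [Real.mul_rpow (by norm_num) hx0.le, Real.sqrt_eq_rpow]
          have e1 : x ^ τ / x ^ (1 / 2 : ℝ) = ((2 : ℝ) ^ (τ - 1 / 2)) ^ j := by
            rw [← Real.rpow_sub hx0, hx, ← Real.rpow_natCast 2 j, ← Real.rpow_mul (by norm_num),
              mul_comm (j : ℝ), Real.rpow_mul (by norm_num), Real.rpow_natCast]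
          rw [← e1]
          ring
  have h2θ : (5 / 4 : ℝ) ≤ 2 ^ (τ - 1 / 2) := by
    calc (5 / 4 : ℝ) ≤ √2 := by
          apply Real.le_sqrt_of_sq_le; norm_num
      _ = 2 ^ (1 / 2 : ℝ) := Real.sqrt_eq_rpow 2
      _ ≤ 2 ^ (τ - 1 / 2) := Real.rpow_le_rpow_of_exponent_le (by norm_num) (by linarith)
  calc ∑ D ∈ S, T D / √|(D : ℝ)|
      = ∑ j ∈ Finset.range (J + 1), ∑ D ∈ S.filter (fun D => Nat.log 2 D.natAbs = j),
          T D / √|(D : ℝ)| := (Finset.sum_fiberwise_of_maps_to hmaps _).symm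
    _ ≤ ∑ j ∈ Finset.range (J + 1), C * 2 ^ τ * ((2 : ℝ) ^ (τ - 1 / 2)) ^ j :=
        Finset.sum_le_sum hblock
    _ = C * 2 ^ τ * ∑ j ∈ Finset.range (J + 1), ((2 : ℝ) ^ (τ - 1 / 2)) ^ j := by
        rw [Finset.mul_sum]
    _ ≤ C * 2 ^ τ * (5 * ((2 : ℝ) ^ (τ - 1 / 2)) ^ J) := by
        have := geom_le' h2θ J
        gcongr
    _ ≤ C * 2 ^ τ * (5 * X ^ (τ - 1 / 2)) := by
        have h1 : ((2 : ℝ) ^ (τ - 1 / 2)) ^ J ≤ X ^ (τ - 1 / 2) := by
          rw [← Real.rpow_natCast, ← Real.rpow_mul (by norm_num), mul_comm (τ - 1 / 2),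
            Real.rpow_mul (by norm_num), Real.rpow_natCast]
          apply Real.rpow_le_rpow (by positivity) _ (by linarith)
          have h2 : 2 ^ J ≤ ⌊X⌋₊ := Nat.pow_log_le_self 2 (by omega)
          have h3 : ((2 ^ J : ℕ) : ℝ) ≤ ⌊X⌋₊ := by exact_mod_cast h2
          push_cast at h3
          exact h3.trans (Nat.floor_le hX0.le)
        gcongr
    _ = C * 2 ^ τ * 5 * X ^ (τ - 1 / 2) := by ring

theorem ev_const_le (a : ℝ) {s : ℝ} (hs : 0 < s) : ∀ᶠ x : ℝ in atTop, a ≤ x ^ s :=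
  (tendsto_rpow_atTop hs).eventually_ge_atTop a

theorem ev_log (a : ℝ) (ha : 0 < a) {s : ℝ} (hs : 0 < s) :
    ∀ᶠ x : ℝ in atTop, Real.log (a * x) ≤ x ^ s := by
  have h1 : (fun x : ℝ => Real.log x) =o[atTop] fun x => x ^ s := isLittleO_log_rpow_atTop hs
  have h2 := h1.bound (show (0 : ℝ) < 1 / 2 by norm_num)
  filter_upwards [h2, ev_const_le (2 * |Real.log a|) hs, eventually_ge_atTop (1 : ℝ)] with x h3 h4 hx
  have hx0 : 0 < x := by linarith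
  rw [Real.log_mul ha.ne' hx0.ne']
  have h5 : Real.log x ≤ 1 / 2 * x ^ s := by
    have := (le_abs_self _).trans h3
    rwa [Real.norm_of_nonneg (Real.rpow_nonneg hx0.le s)] at this
  have h6 := le_abs_self (Real.log a)
  linarith

theorem choose_low (P : ℕ) (hP : 8 ≤ P) : ((P : ℝ)) ^ 2 / 64 ≤ (((P / 2).choose 2 : ℕ) : ℝ) := by
  rw [Nat.choose_two_right]
  set h := P / 2 with hh
  have h1 : P ≤ 2 * h + 1 := by omega
  have h2 : 4 ≤ h := by omega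
  have h3 : (P : ℝ) ≤ 2 * h + 1 := by exact_mod_cast h1
  have h4 : (4 : ℝ) ≤ h := by exact_mod_cast h2
  have h5 : 2 ∣ h * (h - 1) := (Nat.even_mul_pred_self h).two_dvd
  rw [Nat.cast_div h5 (by norm_num), Nat.cast_mul, Nat.cast_sub (by omega)]
  push_cast
  have hP0 : (0 : ℝ) ≤ P := Nat.cast_nonneg _
  nlinarith

/-- primes in the progression `1` modulo `W` -/
theorem pw_low (W : ℕ) (hW : 0 < W) : ∃ c : ℝ, 0 < c ∧ ∃ N : ℕ, ∀ Q : ℕ, N ≤ Q →
    c * Q ≤ ((PW Q W).card : ℝ) * Real.log (4 * Q) := by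
  have : NeZero W := ⟨hW.ne'⟩
  obtain ⟨c, hc, N, h⟩ := Pool.Agent.Lib.helper27.WPNT.weak_pnt_ap (q := W) (r := 1) isUnit_one
    (show (0 : ℝ) < 3 / 4 by norm_num)
  refine ⟨c * 4, by positivity, N + 1, fun Q hQ => ?_⟩
  have h1 := h (4 * Q) (by omega)
  push_cast at h1
  have h2 : ∑ p ∈ (range (4 * Q + 1)).filter (fun p : ℕ => p.Prime ∧ (p : ZMod W) = 1 ∧
      (1 - 3 / 4 : ℝ) * (4 * Q) < p), Real.log p ≤ ((PW Q W).card : ℝ) * Real.log (4 * Q) := by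
    have h3 : (range (4 * Q + 1)).filter (fun p : ℕ => p.Prime ∧ (p : ZMod W) = 1 ∧
      (1 - 3 / 4 : ℝ) * (4 * Q) < p) ⊆ PW Q W := by
      intro p hp
      rw [mem_filter, mem_range] at hp
      obtain ⟨h4, h5, h6, h7⟩ := hp
      rw [PW, mem_filter, mem_Ioc]
      refine ⟨⟨?_, by omega⟩, h5, ?_⟩
      · have : (Q : ℝ) < p := by linarith
        exact_mod_cast this
      · have h8 : (p : ZMod W) = ((1 : ℕ) : ZMod W) := by rw [h6]; simp
        exact (ZMod.natCast_eq_natCast_iff' p 1 W).mp h8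
    calc _ ≤ ∑ p ∈ PW Q W, Real.log p := by
          apply sum_le_sum_of_subset_of_nonneg h3
          intro p hp _
          rw [PW, mem_filter] at hp
          exact Real.log_nonneg (by exact_mod_cast hp.2.1.one_lt.le)
      _ ≤ (PW Q W).card • Real.log (4 * Q) := by
          apply sum_le_card_nsmul
          intro p hp
          rw [PW, mem_filter, mem_Ioc] at hp
          apply Real.log_le_log
          · exact_mod_cast hp.2.1.pos
          · exact_mod_cast hp.1.2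
      _ = _ := by rw [nsmul_eq_mul]
  calc c * 4 * (Q : ℝ) = c * (4 * Q) := by ring
    _ ≤ _ := h1
    _ ≤ _ := h2

/-- the parameters -/
theorem params (W : ℕ) (hW : 0 < W) (l : ℕ) (hl : 5 ≤ l) (θ δ : ℝ) (hθ1 : 1 ≤ ((l : ℝ) - 1) * θ)
    (hθ2 : 3 / 2 ≤ l * θ) (hθ3 : l * θ < 2) (hδ : 0 < δ) : ∃ c : ℝ, 0 < c ∧
    ∀ᶠ x : ℝ in atTop, ∀ X : ℕ, (X : ℝ) = x → ∃ Q L : ℕ, 3 ≤ Q ∧ 4 * Q ≤ L ∧
      W ≤ Q ∧ (16 * Q ^ 2) ^ l < L ^ 6 ∧ 4 * (16 * Q ^ 2) ^ l < X * L ^ 2 ∧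
      (Q : ℝ) ≤ x ^ (θ / 2) ∧ c * x ^ (1 / 2 + θ - 3 * δ) ≤
        ((Q ^ l / (48 * L ^ 2 * W) * (((PW Q W).card / 2).choose 2) *
      ((Ioc L (4 * L)).filter Nat.Prime).card : ℕ) : ℝ) := by
  have hl5 : (5 : ℝ) ≤ l := by exact_mod_cast hl
  have hθ0 : 0 < θ := by
    by_contra h
    rw [not_lt] at h
    nlinarith
  obtain ⟨cP, hcP, NP, hPW⟩ := pw_low W hW
  have hWr : (0 : ℝ) < W := by exact_mod_cast hW
  refine ⟨cP ^ 2 / (3072 * 4 ^ l * 64 * W), by positivity, ?_⟩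
  filter_upwards [eventually_ge_atTop (1 : ℝ), ev_const_le 200000000 (s := θ / 2) (by positivity),
    ev_const_le (W + NP) (s := θ / 2) (by positivity),
    ev_const_le (1536 * 16 ^ l * W) (s := 1 - l * θ / 2) (by linarith),
    ev_log (4 ^ (l + 2)) (by positivity) hδ,
    ev_log (4 ^ (l + 2)) (by positivity) (s := θ / 4) (by positivity),
    ev_const_le (16 / cP) (s := θ / 4) (by positivity)] with x hx1 hE1 hE2 hE3 hE4 hE7 hE8
  have hx0 : 0 < x := by linarith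
  intro X hX
  have hsx : √x = x ^ (1 / 2 : ℝ) := Real.sqrt_eq_rpow x
  have hsx0 : 0 < √x := Real.sqrt_pos.mpr hx0
  have hsx2 : √x ^ 2 = x := Real.sq_sqrt hx0.le
  set Q : ℕ := ⌊x ^ (θ / 2)⌋₊ with hQd
  have hQle : (Q : ℝ) ≤ x ^ (θ / 2) := Nat.floor_le (by positivity)
  have hQlt : x ^ (θ / 2) < Q + 1 := Nat.lt_floor_add_one _
  have hQbig : (100000000 : ℕ) ≤ Q := by
    apply Nat.le_floor
    push_cast
    linarith
  have hQbig' : (100000000 : ℝ) ≤ Q := by exact_mod_cast hQbig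
  have hQW : W + NP ≤ Q := by
    apply Nat.le_floor
    push_cast
    exact hE2
  have hQ0 : (0 : ℝ) < Q := by linarith
  have hQhalf : x ^ (θ / 2) / 2 ≤ Q := by linarith
  set M : ℝ := 2 * 4 ^ l * (Q : ℝ) ^ l / √x with hM
  have hM0 : 0 < M := by positivity
  set L : ℕ := ⌈M⌉₊ + 1 with hLd
  have hLM : M < L := by
    rw [hLd]; push_cast
    have := Nat.le_ceil M
    linarith
  have hLM2 : (L : ℝ) ≤ M + 2 := by
    rw [hLd]; push_cast
    have := (Nat.ceil_lt_add_one hM0.le).le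
    linarith
  -- `M ≥ 4 Q`
  have hM4 : 4 * (Q : ℝ) ≤ M := by
    rw [hM, le_div_iff₀ hsx0]
    have h1 : √x ≤ (2 * (Q : ℝ)) ^ (l - 1) := by
      calc √x = x ^ (1 / 2 : ℝ) := hsx
        _ ≤ x ^ (((l - 1 : ℕ) : ℝ) * (θ / 2)) := by
            apply Real.rpow_le_rpow_of_exponent_le hx1
            rw [Nat.cast_sub (by omega)]
            push_cast
            linarith
        _ = (x ^ (θ / 2)) ^ (l - 1) := by
            rw [mul_comm, Real.rpow_mul hx0.le, Real.rpow_natCast]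
        _ ≤ (2 * (Q : ℝ)) ^ (l - 1) := by
            apply pow_le_pow_left₀ (by positivity)
            linarith
    have h2 : (2 * (Q : ℝ)) ^ l = (2 * (Q : ℝ)) ^ (l - 1) * (2 * (Q : ℝ)) := by
      rw [← pow_succ]; congr 1; omega
    have h3 : (4 : ℝ) ^ l * (Q : ℝ) ^ l = 2 ^ l * (2 * (Q : ℝ)) ^ l := by
      have h44 : (4 : ℝ) ^ l = 2 ^ l * 2 ^ l := by rw [← mul_pow]; norm_num
      rw [h44, mul_pow]; ring
    have h4 : (1 : ℝ) ≤ 2 ^ l := one_le_pow₀ (by norm_num)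
    calc 4 * (Q : ℝ) * √x ≤ 4 * (Q : ℝ) * (2 * (Q : ℝ)) ^ (l - 1) := by gcongr
      _ = 2 * (2 * (Q : ℝ)) ^ l := by rw [h2]; ring
      _ ≤ 2 * (2 ^ l * (2 * (Q : ℝ)) ^ l) := by
          have : 0 ≤ (2 * (Q : ℝ)) ^ l := by positivity
          nlinarith
      _ = 2 * 4 ^ l * (Q : ℝ) ^ l := by rw [← h3]; ring
  have hL4 : 4 * Q ≤ L := by
    have : ((4 * Q : ℕ) : ℝ) < L := by push_cast; linarith
    exact_mod_cast this.le
  have hL2M : (L : ℝ) ≤ 2 * M := by linarith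
  have hLbig : (100000000 : ℕ) ≤ L := by omega
  -- sixth power
  have hL6 : (16 * Q ^ 2) ^ l < L ^ 6 := by
    have h1 : (((16 * Q ^ 2) ^ l : ℕ) : ℝ) < ((L ^ 6 : ℕ) : ℝ) := by
      push_cast
      refine lt_of_le_of_lt ?_ (pow_lt_pow_left₀ hLM hM0.le (by norm_num : (6 : ℕ) ≠ 0))
      rw [hM, div_pow, le_div_iff₀ (by positivity)]
      have h2 : √x ^ 6 = x ^ 3 := by
        calc √x ^ 6 = (√x ^ 2) ^ 3 := by ring
          _ = x ^ 3 := by rw [hsx2]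
      have h3 : x ^ 3 ≤ (2 * (Q : ℝ)) ^ (4 * l) := by
        calc x ^ 3 = x ^ (3 : ℝ) := by rw [← Real.rpow_natCast]; norm_num
          _ ≤ x ^ (((4 * l : ℕ) : ℝ) * (θ / 2)) := by
              apply Real.rpow_le_rpow_of_exponent_le hx1
              push_cast
              linarith
          _ = (x ^ (θ / 2)) ^ (4 * l) := by
              rw [mul_comm, Real.rpow_mul hx0.le, Real.rpow_natCast]
          _ ≤ (2 * (Q : ℝ)) ^ (4 * l) := by
              apply pow_le_pow_left₀ (by positivity)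
              linarith
      rw [h2]
      have e1 : (16 * (Q : ℝ) ^ 2) ^ l * (2 * (Q : ℝ)) ^ (4 * l) = 256 ^ l * (Q : ℝ) ^ (6 * l) := by
        rw [mul_pow, mul_pow, ← pow_mul, pow_mul (2 : ℝ)]
        have : ((2 : ℝ) ^ 4) ^ l = 16 ^ l := by norm_num
        rw [this]
        have : (256 : ℝ) ^ l = 16 ^ l * 16 ^ l := by rw [← mul_pow]; norm_num
        rw [this]
        ring
      have e2 : (2 * 4 ^ l * (Q : ℝ) ^ l) ^ 6 = 64 * (4096 ^ l * (Q : ℝ) ^ (6 * l)) := by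
        rw [mul_pow, mul_pow, ← pow_mul (Q : ℝ), ← pow_mul, mul_comm l 6, pow_mul (4 : ℝ)]
        norm_num
        ring
      calc (16 * (Q : ℝ) ^ 2) ^ l * x ^ 3 ≤ (16 * (Q : ℝ) ^ 2) ^ l * (2 * (Q : ℝ)) ^ (4 * l) := by
            gcongr
        _ = 256 ^ l * (Q : ℝ) ^ (6 * l) := e1
        _ ≤ 4096 ^ l * (Q : ℝ) ^ (6 * l) := by gcongr; norm_num
        _ ≤ 64 * (4096 ^ l * (Q : ℝ) ^ (6 * l)) := by
            have : 0 ≤ 4096 ^ l * (Q : ℝ) ^ (6 * l) := by positivity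
            linarith
        _ = _ := e2.symm
    exact_mod_cast h1
  have hXL : 4 * (16 * Q ^ 2) ^ l < X * L ^ 2 := by
    have h1 : ((4 * (16 * Q ^ 2) ^ l : ℕ) : ℝ) < ((X * L ^ 2 : ℕ) : ℝ) := by
      push_cast
      rw [hX]
      have h2 : M ^ 2 * x = 4 * (16 * (Q : ℝ) ^ 2) ^ l := by
        rw [hM, div_pow, hsx2, div_mul_cancel₀ _ hx0.ne', mul_pow, mul_pow, mul_pow, ← pow_mul,
          ← pow_mul, ← pow_mul, mul_comm l 2, pow_mul (4 : ℝ)]
        norm_num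
        ring
      have h3 : M ^ 2 < (L : ℝ) ^ 2 := pow_lt_pow_left₀ hLM hM0.le (by norm_num)
      calc 4 * (16 * (Q : ℝ) ^ 2) ^ l = M ^ 2 * x := h2.symm
        _ < (L : ℝ) ^ 2 * x := mul_lt_mul_of_pos_right h3 hx0
        _ = x * (L : ℝ) ^ 2 := mul_comm _ _
    exact_mod_cast h1
  refine ⟨Q, L, by omega, hL4, by omega, hL6, hXL, hQle, ?_⟩
  -- lower bound
  have hL0 : (0 : ℝ) < L := by linarith
  have hQl0 : (0 : ℝ) < (Q : ℝ) ^ l := by positivity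
  have hMQ : M * √x = 2 * 4 ^ l * (Q : ℝ) ^ l := by rw [hM, div_mul_cancel₀ _ hsx0.ne']
  have hI : x / (1536 * 16 ^ l * W * (Q : ℝ) ^ l) ≤ ((Q ^ l / (48 * L ^ 2 * W) : ℕ) : ℝ) := by
    have h1 : (Q : ℝ) ^ l ≤ x ^ (l * θ / 2) := by
      calc (Q : ℝ) ^ l ≤ (x ^ (θ / 2)) ^ l := pow_le_pow_left₀ hQ0.le hQle l
        _ = x ^ (l * θ / 2) := by
            rw [← Real.rpow_natCast, ← Real.rpow_mul hx0.le]; congr 1; ring
    have h2 : 1 ≤ x / (1536 * 16 ^ l * W * (Q : ℝ) ^ l) := by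
      rw [le_div_iff₀ (by positivity), one_mul]
      calc 1536 * 16 ^ l * W * (Q : ℝ) ^ l ≤ x ^ (1 - l * θ / 2) * x ^ (l * θ / 2) := by gcongr
        _ = x := by
            rw [← Real.rpow_add hx0]
            have : (1 - (l : ℝ) * θ / 2 + l * θ / 2) = 1 := by ring
            rw [this, Real.rpow_one]
    have h3 : 2 * (x / (1536 * 16 ^ l * W * (Q : ℝ) ^ l)) ≤ (Q : ℝ) ^ l / (48 * (L : ℝ) ^ 2 * W) := by
      rw [mul_div_assoc', div_le_div_iff₀ (by positivity) (by positivity)]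
      have h4 : (L : ℝ) ^ 2 ≤ 4 * M ^ 2 := by
        calc (L : ℝ) ^ 2 ≤ (2 * M) ^ 2 := pow_le_pow_left₀ hL0.le hL2M 2
          _ = 4 * M ^ 2 := by ring
      have h5 : M ^ 2 * x = 4 * 16 ^ l * ((Q : ℝ) ^ l) ^ 2 := by
        have : (M * √x) ^ 2 = M ^ 2 * x := by rw [mul_pow, hsx2]
        rw [← this, hMQ, mul_pow, mul_pow, ← pow_mul, mul_comm l 2, pow_mul]
        norm_num
      calc 2 * x * (48 * (L : ℝ) ^ 2 * W) ≤ 2 * x * (48 * (4 * M ^ 2) * W) := by gcongr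
        _ = 384 * (M ^ 2 * x) * W := by ring
        _ = 384 * (4 * 16 ^ l * ((Q : ℝ) ^ l) ^ 2) * W := by rw [h5]
        _ = (Q : ℝ) ^ l * (1536 * 16 ^ l * W * (Q : ℝ) ^ l) := by ring
    have h6 : (Q : ℝ) ^ l / (48 * (L : ℝ) ^ 2 * W) < ((Q ^ l / (48 * L ^ 2 * W) : ℕ) : ℝ) + 1 := by
      have h7 : Q ^ l < (Q ^ l / (48 * L ^ 2 * W) + 1) * (48 * L ^ 2 * W) := by
        have := Nat.lt_div_mul_add (a := Q ^ l) (b := 48 * L ^ 2 * W) (by positivity)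
        rw [Nat.add_mul, one_mul]
        exact this
      rw [div_lt_iff₀ (by positivity)]
      exact_mod_cast h7
    linarith
  set P := (PW Q W).card with hP
  set R := ((Ioc L (4 * L)).filter Nat.Prime).card with hR
  have hPlow := hPW Q (by omega)
  have hRlow := Pool.Agent.H440R2.primes_in_Ioc L hLbig
  rw [← hP] at hPlow
  rw [← hR] at hRlow
  have hxθ : (Q : ℝ) ≤ x := by
    refine hQle.trans ?_
    nth_rewrite 2 [← Real.rpow_one x]
    apply Real.rpow_le_rpow_of_exponent_le hx1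
    have h55 : 5 * θ ≤ l * θ := by gcongr
    linarith
  have hlogQ' : Real.log (4 * Q) ≤ Real.log (4 ^ (l + 2) * x) := by
    refine Real.log_le_log (by positivity) ?_
    have : (4 : ℝ) ≤ 4 ^ (l + 2) := by
      calc (4 : ℝ) = 4 ^ 1 := by norm_num
        _ ≤ 4 ^ (l + 2) := pow_le_pow_right₀ (by norm_num) (by omega)
    gcongr
  have hlogQ : Real.log (4 * Q) ≤ x ^ δ := hlogQ'.trans hE4
  have hlogL : Real.log (4 * L) ≤ x ^ δ := by
    refine le_trans (Real.log_le_log (by positivity) ?_) hE4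
    have h1 : M ≤ 2 * 4 ^ l * √x := by
      rw [hM, div_le_iff₀ hsx0]
      have h2 : (Q : ℝ) ^ l ≤ x := by
        calc (Q : ℝ) ^ l ≤ (x ^ (θ / 2)) ^ l := pow_le_pow_left₀ hQ0.le hQle l
          _ = x ^ (l * θ / 2) := by
              rw [← Real.rpow_natCast, ← Real.rpow_mul hx0.le]; congr 1; ring
          _ ≤ x ^ (1 : ℝ) := Real.rpow_le_rpow_of_exponent_le hx1 (by linarith)
          _ = x := Real.rpow_one x
      calc 2 * 4 ^ l * (Q : ℝ) ^ l ≤ 2 * 4 ^ l * x := by gcongr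
        _ = 2 * 4 ^ l * √x * √x := by rw [mul_assoc (2 * 4 ^ l : ℝ), ← sq, hsx2]
    have h2 : √x ≤ x := by
      have h11 : 1 ≤ √x := by rw [Real.one_le_sqrt]; exact hx1
      calc √x = √x * 1 := (mul_one _).symm
        _ ≤ √x * √x := by gcongr
        _ = x := Real.mul_self_sqrt hx0.le
    calc 4 * (L : ℝ) ≤ 4 * (2 * M) := by gcongr
      _ ≤ 4 * (2 * (2 * 4 ^ l * x)) := by
          gcongr
          exact h1.trans (by gcongr)
      _ = 4 ^ (l + 2) * x := by ring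
  have hxδ : 0 < x ^ δ := Real.rpow_pos_of_pos hx0 _
  have hxθ4 : 0 < x ^ (θ / 4) := Real.rpow_pos_of_pos hx0 _
  have hP1 : cP * (Q : ℝ) ≤ P * x ^ δ := hPlow.trans (by gcongr)
  have hP2 : cP * (Q : ℝ) ≤ P * x ^ (θ / 4) := hPlow.trans (by gcongr; exact hlogQ'.trans hE7)
  have hR1 : (L : ℝ) ≤ R * x ^ δ := hRlow.trans (by gcongr)
  have hP8 : 8 ≤ P := by
    have h1 : x ^ (θ / 2) = x ^ (θ / 4) * x ^ (θ / 4) := by
      rw [← Real.rpow_add hx0]; congr 1; ring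
    have h2 : cP * (x ^ (θ / 4) * x ^ (θ / 4) / 2) ≤ P * x ^ (θ / 4) := by
      refine le_trans ?_ hP2
      rw [← h1]
      gcongr
    have h3 : cP * (x ^ (θ / 4) / 2) ≤ P := by
      have h4 : cP * (x ^ (θ / 4) / 2) * x ^ (θ / 4) ≤ P * x ^ (θ / 4) := by
        refine le_trans (le_of_eq ?_) h2
        ring
      exact le_of_mul_le_mul_right h4 hxθ4
    have h5 : 16 ≤ cP * x ^ (θ / 4) := by
      rw [div_le_iff₀ hcP] at hE8
      linarith
    have h6 : (8 : ℝ) ≤ P := by linarith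
    exact_mod_cast h6
  have hch : ((P : ℝ)) ^ 2 / 64 ≤ (((P / 2).choose 2 : ℕ) : ℝ) := choose_low P hP8
  push_cast
  have hQ2 : x ^ θ / 4 ≤ (Q : ℝ) ^ 2 := by
    calc x ^ θ / 4 = (x ^ (θ / 2) / 2) ^ 2 := by
          rw [div_pow, ← Real.rpow_natCast, ← Real.rpow_mul hx0.le]
          norm_num
      _ ≤ (Q : ℝ) ^ 2 := pow_le_pow_left₀ (by positivity) hQhalf 2
  have hfinal : cP ^ 2 / (3072 * 4 ^ l * 64 * W) * x ^ (1 / 2 + θ - 3 * δ) ≤
      x / (1536 * 16 ^ l * W * (Q : ℝ) ^ l) * ((P : ℝ) ^ 2 / 64) * R := by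
    have h1 : (cP * (Q : ℝ) / x ^ δ) ^ 2 ≤ (P : ℝ) ^ 2 := by
      apply pow_le_pow_left₀ (by positivity)
      rw [div_le_iff₀ hxδ]; exact hP1
    have h2 : M / x ^ δ ≤ R := by
      rw [div_le_iff₀ hxδ]; linarith
    calc cP ^ 2 / (3072 * 4 ^ l * 64 * W) * x ^ (1 / 2 + θ - 3 * δ)
        = cP ^ 2 / (3072 * 4 ^ l * 64 * W) * (√x * x ^ θ / (x ^ δ) ^ 3) := by
          congr 1
          rw [hsx, ← Real.rpow_add hx0, ← Real.rpow_natCast, ← Real.rpow_mul hx0.le,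
            ← Real.rpow_sub hx0]
          congr 1; push_cast; ring
      _ ≤ cP ^ 2 / (3072 * 4 ^ l * 64 * W) * (√x * (4 * (Q : ℝ) ^ 2) / (x ^ δ) ^ 3) := by
          gcongr; linarith
      _ = x / (1536 * 16 ^ l * W * (Q : ℝ) ^ l) * ((cP * (Q : ℝ) / x ^ δ) ^ 2 / 64) *
            (M / x ^ δ) := by
          have e : x * M = √x * (2 * 4 ^ l * (Q : ℝ) ^ l) := by
            rw [← hMQ]; nth_rewrite 1 [← hsx2]; ring
          have e16 : (16 : ℝ) ^ l = 4 ^ l * 4 ^ l := by rw [← mul_pow]; norm_num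
          have e5 : x / (1536 * 16 ^ l * W * (Q : ℝ) ^ l) * ((cP * (Q : ℝ) / x ^ δ) ^ 2 / 64) *
              (M / x ^ δ) = (x * M) * (cP ^ 2 * (Q : ℝ) ^ 2) /
                (1536 * 16 ^ l * W * (Q : ℝ) ^ l * 64 * (x ^ δ) ^ 3) := by
            field_simp
          rw [e5, e, e16]
          field_simp
          norm_num
      _ ≤ _ := by gcongr
  refine hfinal.trans ?_
  gcongr

/-- negative fundamental discriminants with a local condition at the primes of `S` -/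
noncomputable def locF (S : Finset ℕ) (D₀ : ℤ) (X : ℕ) : Finset ℤ :=
  (Finset.Ioo (-(X : ℤ)) (0 : ℤ)).filter (fun D : ℤ =>
    ((D % 4 = 1 ∧ D ≠ 1 ∧ Squarefree D) ∨
    (∃ m : ℤ, D = 4 * m ∧ (m % 4 = 2 ∨ m % 4 = 3) ∧ Squarefree m)) ∧
    ∀ r ∈ S, ∀ [Fact r.Prime], IsSquare (((D * D₀ : ℤ)) : ℚ_[r]))

theorem locF_sub (S : Finset ℕ) (D₀ : ℤ) (X : ℕ) : locF S D₀ X ⊆ negF X := by
  intro D hD
  rw [locF, mem_filter] at hD
  rw [negF, mem_filter]
  exact ⟨hD.1, hD.2.1⟩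

/-- **Assembly.** -/
theorem assembly (S : Finset ℕ) (hS : ∀ r ∈ S, r.Prime) (D₀ : ℤ) (hD₀ : D₀ ≠ 0)
    (l : ℕ) (hl : 5 ≤ l) (θ τ δ : ℝ) (hθ1 : 1 ≤ ((l : ℝ) - 1) * θ)
    (hθ2 : 3 / 2 ≤ l * θ) (hθ3 : l * θ < 2) (hδ : 0 < δ) (hτ : 1 ≤ τ)
    (hc : 2 * θ * (τ - 1 / 2) + 4 * δ ≤ 1 / 2) (C0 : ℝ) (hC0 : 0 ≤ C0) :
    ∀ᶠ x : ℝ in atTop, ∀ X : ℕ, (X : ℝ) = x → ∀ (K : ℤ → Type) [∀ D, Field (K D)]
      [∀ D, NumberField (K D)],
      (∀ D ∈ locF S D₀ X, Module.finrank ℚ (K D) = 2 ∧ discr (K D) = D) →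
      (∀ B : ℝ, 1 ≤ B → ∑ D ∈ (locF S D₀ X).filter (fun D : ℤ => |(D : ℝ)| ≤ B),
        (Nat.card {c : ClassGroup (𝓞 (K D)) // c ^ l = 1} : ℝ) ≤ C0 * B ^ τ) →
      x ^ (1 / 2 + θ - 4 * δ) ≤
        ∑ D ∈ locF S D₀ X, ((Nat.card {c : ClassGroup (𝓞 (K D)) // c ^ l = 1} : ℝ) - 1) := by
  have hl5 : (5 : ℝ) ≤ l := by exact_mod_cast hl
  have hθ0 : 0 < θ := by
    by_contra h
    rw [not_lt] at h
    nlinarith
  set M₀ : ℕ := ∏ r ∈ S, r with hM₀
  have hM₀0 : 0 < M₀ := Finset.prod_pos (fun r hr => (hS r hr).pos)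
  set W : ℕ := 512 * D₀.natAbs * M₀ ^ 3 with hWd
  have hW0 : 0 < W := by
    have : 0 < D₀.natAbs := Int.natAbs_pos.mpr hD₀
    positivity
  have hWZ : (W : ℤ) = 512 * |D₀| * M₀ ^ 3 := by
    rw [hWd]; push_cast; rfl
  set a : ℕ := ((1 + 32 * D₀ * M₀ ^ 2) % (W : ℤ)).toNat with had
  have haZ : (a : ℤ) = (1 + 32 * D₀ * M₀ ^ 2) % (W : ℤ) :=
    Int.toNat_of_nonneg (Int.emod_nonneg _ (by exact_mod_cast hW0.ne'))
  obtain ⟨c, hc0, hpar⟩ := params W hW0 l hl θ δ hθ1 hθ2 hθ3 hδ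
  set C1 : ℝ := 95040 * (C0 * 2 ^ τ * 5 * 1024 ^ (τ - 1 / 2)) with hC1
  have hC1' : 0 ≤ C1 := by positivity
  filter_upwards [hpar, eventually_ge_atTop (1 : ℝ),
    ev_const_le (2 * C1 / c) hδ, ev_const_le (60 / c) hδ] with x hp hx1 hE5 hE6
  have hx0 : 0 < x := by linarith
  intro X hX K _ _ hK hB
  obtain ⟨Q, L, hQ, hQL, hWQ, hL6, hXL, hQx, hlow⟩ := hp X hX
  have hmain := main_count (l := l) (a := a) (by omega) hQ hQL hW0 hWQ hL6 hXL (locF S D₀ X)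
    (locF_sub S D₀ X) (by
      intro D hD g hg d m hm hℓ h1 h2
      rw [negF, mem_filter] at hD
      rw [locF, mem_filter]
      refine ⟨hD.1, hD.2, ?_⟩
      intro r hr _
      rw [G, mem_filter] at hg
      obtain ⟨-, -, -, -, hn, hx⟩ := hg
      apply local_square (M := M₀) (W := W) hm hℓ hWZ h1 h2
      · have h3 : ((g.1 : ℕ) : ℤ) % (W : ℤ) = ((1 : ℕ) : ℤ) % (W : ℤ) := by exact_mod_cast hn
        have h4 := Int.ModEq.dvd (Int.ModEq.symm h3)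
        exact_mod_cast h4
      · have h3 : ((g.2.2 : ℕ) : ℤ) % (W : ℤ) = ((a : ℕ) : ℤ) % (W : ℤ) := by exact_mod_cast hx
        rw [haZ, Int.emod_emod_of_dvd _ dvd_rfl] at h3
        exact Int.ModEq.dvd (Int.ModEq.symm h3)
      · exact Finset.dvd_prod_of_mem (fun r => r) hr) K hK
  have hlow2 := hlow.trans hmain
  set T : ℤ → ℝ := fun D => (Nat.card {c : ClassGroup (𝓞 (K D)) // c ^ l = 1} : ℝ) with hT
  set A : ℝ := ∑ D ∈ locF S D₀ X, (T D - 1) with hA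
  have hQ1 : (1 : ℝ) ≤ Q := by exact_mod_cast (show 1 ≤ Q by omega)
  have hB0 : (1 : ℝ) ≤ 1024 * (Q : ℝ) ^ 4 := by
    have : (1 : ℝ) ≤ (Q : ℝ) ^ 4 := one_le_pow₀ hQ1
    linarith
  have hneg : ∀ D ∈ locF S D₀ X, |(D : ℝ)| = -(D : ℝ) := by
    intro D hD
    apply abs_of_neg
    have h5 : (D : ℝ) ≤ -3 := by exact_mod_cast (negF_le (locF_sub S D₀ X hD))
    linarith
  have hsum : ∑ D ∈ (locF S D₀ X).filter (fun D => -D ≤ 1024 * (Q : ℤ) ^ 4), T D / √|(D : ℝ)| ≤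
      C0 * 2 ^ τ * 5 * (1024 * (Q : ℝ) ^ 4) ^ (τ - 1 / 2) := by
    apply dyadic hτ hC0 hB0
    · intro D _
      exact Nat.cast_nonneg _
    · intro D hD
      have := negF_le (locF_sub S D₀ X (mem_filter.mp hD).1)
      omega
    · intro D hD
      rw [mem_filter] at hD
      rw [hneg D hD.1]
      exact_mod_cast hD.2
    · intro Y hY
      refine le_trans ?_ (hB Y hY)
      apply sum_le_sum_of_subset_of_nonneg
      · intro D hD
        rw [mem_filter, mem_filter] at hD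
        rw [mem_filter]
        exact ⟨hD.1.1, hD.2⟩
      · intro D _ _
        exact Nat.cast_nonneg _
  have hQ2 : (Q : ℝ) ^ 2 ≤ x ^ θ := by
    calc (Q : ℝ) ^ 2 ≤ (x ^ (θ / 2)) ^ 2 := pow_le_pow_left₀ (by positivity) hQx 2
      _ = x ^ θ := by
          rw [← Real.rpow_natCast, ← Real.rpow_mul hx0.le]; congr 1; push_cast; ring
  have hQ4 : (Q : ℝ) ^ 4 ≤ x ^ (2 * θ) := by
    calc (Q : ℝ) ^ 4 = ((Q : ℝ) ^ 2) ^ 2 := by ring
      _ ≤ (x ^ θ) ^ 2 := pow_le_pow_left₀ (by positivity) hQ2 2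
      _ = x ^ (2 * θ) := by
          rw [← Real.rpow_natCast, ← Real.rpow_mul hx0.le]; congr 1; push_cast; ring
  have hup : 95040 * (Q : ℝ) ^ 2 * ∑ D ∈ (locF S D₀ X).filter (fun D => -D ≤ 1024 * (Q : ℤ) ^ 4),
      T D / √|(D : ℝ)| ≤ C1 * x ^ (1 / 2 + θ - 4 * δ) := by
    calc 95040 * (Q : ℝ) ^ 2 * ∑ D ∈ (locF S D₀ X).filter (fun D => -D ≤ 1024 * (Q : ℤ) ^ 4),
        T D / √|(D : ℝ)|
        ≤ 95040 * x ^ θ * (C0 * 2 ^ τ * 5 * (1024 * x ^ (2 * θ)) ^ (τ - 1 / 2)) := by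
          refine mul_le_mul (by gcongr) (hsum.trans ?_) ?_ (by positivity)
          · have h1 : (1024 * (Q : ℝ) ^ 4) ^ (τ - 1 / 2) ≤ (1024 * x ^ (2 * θ)) ^ (τ - 1 / 2) := by
              apply Real.rpow_le_rpow (by positivity) _ (by linarith)
              gcongr
            gcongr
          · apply sum_nonneg
            intro D _
            have : 0 ≤ T D := Nat.cast_nonneg _
            positivity
      _ = C1 * (x ^ θ * x ^ (2 * θ * (τ - 1 / 2))) := by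
          rw [Real.mul_rpow (by norm_num) (by positivity), ← Real.rpow_mul hx0.le, hC1]
          ring
      _ ≤ C1 * x ^ (1 / 2 + θ - 4 * δ) := by
          rw [← Real.rpow_add hx0]
          gcongr
          linarith
  -- conclusion
  have hsplit : x ^ (1 / 2 + θ - 3 * δ) = x ^ (1 / 2 + θ - 4 * δ) * x ^ δ := by
    rw [← Real.rpow_add hx0]; congr 1; ring
  have hy0 : 0 < x ^ (1 / 2 + θ - 4 * δ) := Real.rpow_pos_of_pos hx0 _
  rw [hsplit] at hlow2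
  have h5 : 2 * C1 ≤ c * x ^ δ := by
    rw [div_le_iff₀ hc0] at hE5; linarith
  have h6 : 60 ≤ c * x ^ δ := by
    rw [div_le_iff₀ hc0] at hE6; linarith
  have h7 : c * (x ^ (1 / 2 + θ - 4 * δ) * x ^ δ) ≤ 30 * A + C1 * x ^ (1 / 2 + θ - 4 * δ) := by
    linarith
  have h8 : (2 * C1 + 60) * x ^ (1 / 2 + θ - 4 * δ) ≤ 2 * (c * x ^ δ) * x ^ (1 / 2 + θ - 4 * δ) := by
    apply mul_le_mul_of_nonneg_right _ hy0.le
    linarith
  nlinarith

end Pool.Agent.T2h80.TL
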