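import Pool.Agent.T2h80.TL.Field
import Pool.Agent.T2h80.TL.Arith

set_option autoImplicit false

/-! Counting ideals of small norm in a class, and generators of powers of ideals. -/

namespace Pool.Agent.T2h80.TL

open NumberField Finset Pool.Agent.Y159.QS
open scoped nonZeroDivisors

variable {K : Type} [Field K] [NumberField K]

/-- `1, α` are linearly independent -/
theorem indep {α : K} (hD : discr K < 0) (hα : α ^ 2 = ((discr K : ℤ) : K)) {a b a' b' : ℤ}
    (h : (a : K) + b * α = a' + b' * α) : a = a' ∧ b = b' := by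
  have hb : b = b' := by
    by_contra hne
    have h1 : ((b - b' : ℤ) : K) * α = ((a' - a : ℤ) : K) := by push_cast; linear_combination h
    have h2 : ((b - b' : ℤ) : K) ^ 2 * ((discr K : ℤ) : K) = ((a' - a : ℤ) : K) ^ 2 := by
      rw [← hα, ← h1]; ring
    have h3 : (b - b') ^ 2 * discr K = (a' - a) ^ 2 := by exact_mod_cast h2
    have h4 : 0 < (b - b') ^ 2 := by
      have : b - b' ≠ 0 := sub_ne_zero.mpr hne
      positivity
    nlinarith [sq_nonneg (a' - a)]
  subst hb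
  have : (a : K) = a' := by linear_combination h
  exact ⟨by exact_mod_cast this, rfl⟩

/-- the number of ideals of squarefree norm in `(A, 16 A]` in one class -/
theorem class_count (hK : Module.finrank ℚ K = 2) (hD : discr K < 0) {A : ℕ}
    (S : Finset (Ideal (𝓞 K))) (hS : ∀ I ∈ S, Squarefree (Ideal.absNorm I) ∧
      A < Ideal.absNorm I ∧ Ideal.absNorm I ≤ 16 * A) (c : ClassGroup (𝓞 K))
    (hc : ∀ I ∈ S, ∃ hI : I ≠ ⊥, ClassGroup.mk0 ⟨I, mem_nonZeroDivisors_of_ne_zero hI⟩ = c)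
    (κ : ℕ) (hκ : (32 * A : ℤ) ^ 2 < - discr K * (κ + 1) ^ 2) : S.card ≤ (2 * κ + 1) * 33 := by
  classical
  rcases S.eq_empty_or_nonempty with hSe | ⟨J, hJS⟩
  · rw [hSe, card_empty]; exact Nat.zero_le _
  obtain ⟨hsJ, hJ1, hJ2⟩ := hS J hJS
  obtain ⟨hJ, hJc⟩ := hc J hJS
  obtain ⟨J', hJJ, hJn⟩ := cofactor hK hsJ.ne_zero
  set n := Ideal.absNorm J with hn
  have hn0 : 0 < n := Nat.pos_of_ne_zero hsJ.ne_zero
  have hJ' : J' ≠ ⊥ := by
    rintro rfl
    rw [Ideal.absNorm_bot] at hJn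
    exact hsJ.ne_zero hJn.symm
  obtain ⟨α, hα, hr⟩ := rep hK
  have key : ∀ I : Ideal (𝓞 K), ∃ p : ℤ × ℤ, I ∈ S → ∃ γ : 𝓞 K, I * J' = Ideal.span {γ} ∧
      2 * (γ : K) = (p.1 : K) + p.2 * α ∧
      p.1 ^ 2 - discr K * p.2 ^ 2 = 4 * ((Ideal.absNorm I * n : ℕ) : ℤ) := by
    intro I
    by_cases hIS : I ∈ S
    · obtain ⟨hI, hIc⟩ := hc I hIS
      obtain ⟨γ, hγ⟩ := gen_of_class hI hJ hJ' (by rw [hJJ]; exact ⟨_, rfl⟩) (hIc.trans hJc.symm)
      obtain ⟨t, k, h1, h2⟩ := hr γ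
      refine ⟨(t, k), fun _ => ⟨γ, hγ, h1, ?_⟩⟩
      have h := Ideal.absNorm_span_singleton γ
      rw [← hγ, map_mul, hJn] at h
      rw [h, Int.natCast_natAbs, abs_of_nonneg (norm_nonneg' hK hD γ)]
      exact h2.symm
    · exact ⟨(0, 0), fun h => absurd h hIS⟩
  choose f hf using key
  have hbd : ∀ I ∈ S, (f I).1 ^ 2 - discr K * (f I).2 ^ 2 ≤ (32 * A : ℤ) ^ 2 := by
    intro I hIS
    obtain ⟨γ, -, -, h3⟩ := hf I hIS
    rw [h3]
    have h4 : Ideal.absNorm I * n ≤ (16 * A) * (16 * A) :=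
      Nat.mul_le_mul (hS I hIS).2.2 hJ2
    have h5 : ((Ideal.absNorm I * n : ℕ) : ℤ) ≤ ((16 * A) * (16 * A) : ℕ) := by exact_mod_cast h4
    push_cast at h5 ⊢
    nlinarith
  have hmap : ∀ I ∈ S, ((f I).2, (f I).1 / (2 * n : ℤ)) ∈
      (Icc (-(κ : ℤ)) κ) ×ˢ (Icc (-16 : ℤ) 16) := by
    intro I hIS
    have h1 := hbd I hIS
    set t := (f I).1
    set k := (f I).2
    rw [mem_product, mem_Icc, mem_Icc]
    have hk : k ^ 2 < (κ + 1) ^ 2 := by
      by_contra hcon
      rw [not_lt] at hcon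
      have : - discr K * (κ + 1) ^ 2 ≤ - discr K * k ^ 2 :=
        mul_le_mul_of_nonneg_left hcon (by omega)
      nlinarith [sq_nonneg t]
    have hk' : |k| < κ + 1 := by
      have := sq_lt_sq.mp hk
      rwa [abs_of_nonneg (show (0 : ℤ) ≤ κ + 1 by positivity)] at this
    have ht : t ^ 2 ≤ (32 * A : ℤ) ^ 2 := by nlinarith [sq_nonneg k]
    have ht' : |t| ≤ 32 * A := by
      have := sq_le_sq.mp ht
      rwa [abs_of_nonneg (show (0 : ℤ) ≤ 32 * A by positivity)] at this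
    rw [abs_lt] at hk'
    rw [abs_le] at ht'
    have hnA : (A : ℤ) < n := by exact_mod_cast hJ1
    have hn0' : (0 : ℤ) < 2 * n := by positivity
    refine ⟨⟨by linarith [hk'.1], by linarith [hk'.2]⟩, ?_, ?_⟩
    · rw [Int.le_ediv_iff_mul_le hn0']
      linarith [ht'.1]
    · have : t / (2 * n : ℤ) < 17 := by
        rw [Int.ediv_lt_iff_lt_mul hn0']
        linarith [ht'.2]
      linarith
  have hinj : Set.InjOn (fun I => ((f I).2, (f I).1 / (2 * n : ℤ))) (S : Set (Ideal (𝓞 K))) := by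
    intro I hIS I' hIS' hff
    simp only [Prod.mk.injEq] at hff
    obtain ⟨hk, hq⟩ := hff
    obtain ⟨γ, hγ, h1, h2⟩ := hf I hIS
    obtain ⟨γ', hγ', h1', h2'⟩ := hf I' hIS'
    rw [← hk] at h1' h2'
    set t := (f I).1
    set t' := (f I').1
    set k := (f I).2
    have hpar : (2 : ℤ) ∣ t - t' := by
      have h5 : (2 : ℤ) ∣ (t - t') * (t + t') := by
        refine ⟨2 * (((Ideal.absNorm I * n : ℕ) : ℤ) - ((Ideal.absNorm I' * n : ℕ) : ℤ)), ?_⟩
        linear_combination h2 - h2'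
      rcases Int.prime_two.dvd_or_dvd h5 with h6 | h6
      · exact h6
      · have : t - t' = (t + t') - 2 * t' := by ring
        rw [this]
        exact dvd_sub h6 (dvd_mul_right _ _)
    obtain ⟨c, hc'⟩ := hpar
    have hδ : (γ : K) - (γ' : K) = c := by
      have : (2 : K) * ((γ : K) - (γ' : K)) = 2 * c := by
        have e : ((t - t' : ℤ) : K) = ((2 * c : ℤ) : K) := by rw [hc']
        push_cast at e
        linear_combination h1 - h1' + e
      exact mul_left_cancel₀ two_ne_zero this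
    have hδ' : γ - γ' = (c : 𝓞 K) := by
      apply RingOfIntegers.coe_injective
      rw [map_sub, map_intCast]
      exact hδ
    have hcJ : (c : 𝓞 K) ∈ J' := by
      rw [← hδ']
      apply Ideal.sub_mem
      · exact Ideal.mul_le_right (by rw [hγ]; exact Ideal.mem_span_singleton_self γ)
      · exact Ideal.mul_le_right (by rw [hγ']; exact Ideal.mem_span_singleton_self γ')
    have hnc : n ∣ c.natAbs := by
      have h7 : Ideal.span {(c : 𝓞 K)} ≤ J' := by
        rw [Ideal.span_le, Set.singleton_subset_iff]; exact hcJ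
      have h8 := Ideal.absNorm_dvd_absNorm_of_le h7
      rw [hJn, Ideal.absNorm_span_singleton] at h8
      have h9 : Algebra.norm ℤ (c : 𝓞 K) = c ^ 2 := by
        have := Algebra.norm_algebraMap (S := 𝓞 K) c
        rw [RingOfIntegers.rank, hK] at this
        simpa using this
      rw [h9, Int.natAbs_pow] at h8
      exact (hsJ.dvd_pow_iff_dvd two_ne_zero).mp h8
    obtain ⟨m, hm⟩ := Int.natCast_dvd.mpr hnc
    have htt : t = t' := by
      have e1 : t = t' + (2 * n) * m := by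
        have : t - t' = 2 * ((n : ℤ) * m) := by rw [hc', hm]
        linarith
      have e2 : (t' + (2 * n) * m) / (2 * n : ℤ) = t' / (2 * n : ℤ) + m :=
        Int.add_mul_ediv_left _ _ (by positivity)
      rw [e1, e2] at hq
      have : m = 0 := by linarith
      rw [e1, this]; ring
    have hγγ : γ = γ' := by
      apply RingOfIntegers.coe_injective
      have : (2 : K) * (γ : K) = 2 * (γ' : K) := by rw [h1, h1', htt]
      exact mul_left_cancel₀ two_ne_zero this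
    have : I * J' = I' * J' := by rw [hγ, hγ', hγγ]
    exact mul_right_cancel₀ hJ' this
  have hcard := card_le_card_of_injOn _ hmap hinj
  rw [card_product, Int.card_Icc, Int.card_Icc] at hcard
  have e1 : ((κ : ℤ) + 1 - -(κ : ℤ)).toNat = 2 * κ + 1 := by omega
  have e2 : ((16 : ℤ) + 1 - -16).toNat = 33 := by decide
  rw [e1, e2] at hcard
  exact hcard

/-- units -/
theorem unit_rep (hD3 : discr K ≤ -3) {t k : ℤ} (h : 4 = t ^ 2 - discr K * k ^ 2) : (t, k) ∈ (Icc (-2 : ℤ) 2) ×ˢ (Icc (-1 : ℤ) 1) := by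
  rw [mem_product, mem_Icc, mem_Icc]
  have h1 : t ^ 2 ≤ 2 ^ 2 := by nlinarith [sq_nonneg k]
  have h2 : k ^ 2 < 2 ^ 2 := by nlinarith [sq_nonneg t]
  have h3 := abs_le_of_sq_le_sq' h1 (by norm_num)
  have h4 := abs_lt_of_sq_lt_sq' h2 (by norm_num)
  refine ⟨h3, ?_, ?_⟩
  · have := h4.1; omega
  · have := h4.2; omega

/-- the ideal attached to a solution of `x² + ℓ² d = n ^ l` -/
theorem ideal_of_eq (hK : Module.finrank ℚ K = 2) (hD : discr K < 0) {α : K}
    (hα : α ^ 2 = ((discr K : ℤ) : K)) {l n x ℓ d g : ℕ} (hl : 1 ≤ l)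
    (hdg : discr K * (g : ℤ) ^ 2 = -(4 * d)) (hn : x ^ 2 + ℓ ^ 2 * d = n ^ l)
    (hcop : Nat.Coprime x n) (hodd : Odd n) :
    ∃ (I : Ideal (𝓞 K)) (β : 𝓞 K) (k : ℤ), Ideal.absNorm I = n ∧ I ^ l = Ideal.span {β} ∧
      2 * (β : K) = (2 * x : ℤ) + k * α := by
  have hγi : IsIntegral ℤ ((g : K) * α / 2) := by
    apply IsIntegral.of_pow (n := 2) (by norm_num)
    have : ((g : K) * α / 2) ^ 2 = ((-(d : ℤ) : ℤ) : K) := by
      have e : ((discr K * (g : ℤ) ^ 2 : ℤ) : K) = ((-(4 * d) : ℤ) : K) := by rw [hdg]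
      push_cast at e ⊢
      rw [← hα] at e
      linear_combination e / 4
    rw [this]
    exact isIntegral_algebraMap (R := ℤ) (A := K) (x := -(d : ℤ))
  let γ : 𝓞 K := ⟨(g : K) * α / 2, hγi⟩
  have hγ : (γ : K) = (g : K) * α / 2 := rfl
  have hγ2 : γ ^ 2 = -(d : 𝓞 K) := by
    apply RingOfIntegers.coe_injective
    rw [map_pow, map_neg, map_natCast]
    change ((γ : K)) ^ 2 = _
    rw [hγ]
    have e : ((discr K * (g : ℤ) ^ 2 : ℤ) : K) = ((-(4 * d) : ℤ) : K) := by rw [hdg]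
    push_cast at e
    rw [← hα] at e
    linear_combination e / 4
  set β : 𝓞 K := (x : 𝓞 K) + ℓ * γ with hβ
  set β' : 𝓞 K := (x : 𝓞 K) - ℓ * γ with hβ'
  have hprod : β * β' = ((n : ℕ) : 𝓞 K) ^ l := by
    have e : (((x ^ 2 + ℓ ^ 2 * d : ℕ)) : 𝓞 K) = ((n ^ l : ℕ) : 𝓞 K) := by rw [hn]
    push_cast at e
    rw [hβ, hβ', ← e]
    linear_combination -(ℓ : 𝓞 K) ^ 2 * hγ2
  have hcp : IsCoprime β β' := by
    have h1 : IsCoprime (2 * x : ℤ) ((n : ℤ) ^ l) := by
      apply IsCoprime.pow_right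
      rw [Int.isCoprime_iff_gcd_eq_one]
      have h2 : Nat.Coprime (2 * x) n := by
        apply Nat.Coprime.mul_left
        · exact (Nat.coprime_two_left).mpr hodd
        · exact hcop
      have : ((2 * x : ℤ)) = ((2 * x : ℕ) : ℤ) := by push_cast; rfl
      rw [this, Int.gcd_natCast_natCast]
      exact h2
    obtain ⟨u, v, huv⟩ := h1
    refine ⟨(u : 𝓞 K) + v * β', u, ?_⟩
    have e : ((u * (2 * x) + v * (n : ℤ) ^ l : ℤ) : 𝓞 K) = ((1 : ℤ) : 𝓞 K) := by rw [huv]
    push_cast at e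
    have e2 : β + β' = 2 * x := by rw [hβ, hβ']; ring
    linear_combination e + (u : 𝓞 K) * e2 + (v : 𝓞 K) * hprod
  have hmul : Ideal.span {β} * Ideal.span {β'} = (Ideal.span {((n : ℕ) : 𝓞 K)}) ^ l := by
    rw [Ideal.span_singleton_mul_span_singleton, hprod, Ideal.span_singleton_pow]
  have hcpI : IsCoprime (Ideal.span {β}) (Ideal.span {β'}) :=
    (Ideal.isCoprime_span_singleton_iff β β').mpr hcp
  let _ : GCDMonoid (Ideal (𝓞 K)) := UniqueFactorizationMonoid.toGCDMonoid _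
  obtain ⟨I, hI⟩ := exists_eq_pow_of_mul_eq_pow_of_coprime hcpI hmul
  have h2β : 2 * (β : K) = ((2 * x : ℤ) : K) + ((ℓ * g : ℤ) : K) * α := by
    have : (β : K) = x + ℓ * ((g : K) * α / 2) := by
      rw [hβ]
      push_cast
      rfl
    rw [this]
    push_cast
    ring
  refine ⟨I, β, ℓ * g, ?_, hI.symm, h2β⟩
  have hnorm : Algebra.norm ℤ β = (n : ℤ) ^ l := by
    obtain ⟨α', hα', hr⟩ := rep hK
    obtain ⟨t, k, h1, h2⟩ := hr β
    have hαα : α' = α ∨ α' = -α := by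
      have : (α' - α) * (α' + α) = 0 := by linear_combination hα' - hα
      rcases mul_eq_zero.mp this with h | h
      · left; linear_combination h
      · right; linear_combination h
    have hfin : ∀ k' : ℤ, k' ^ 2 = k ^ 2 → (t : K) + k' * α = ((2 * x : ℤ) : K) + ((ℓ * g : ℤ) : K) * α →
        Algebra.norm ℤ β = (n : ℤ) ^ l := by
      intro k' hk' he
      obtain ⟨e1, e2⟩ := indep hD hα he
      have e3 : (x : ℤ) ^ 2 + (ℓ : ℤ) ^ 2 * d = (n : ℤ) ^ l := by exact_mod_cast hn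
      rw [← hk', e1, e2] at h2
      have e4 : 4 * Algebra.norm ℤ β = 4 * (n : ℤ) ^ l := by
        linear_combination h2 + 4 * e3 - (ℓ : ℤ) ^ 2 * hdg
      linarith
    rcases hαα with h | h
    · apply hfin k rfl
      rw [← h2β, h1, h]
    · apply hfin (-k) (by ring)
      rw [← h2β, h1, h]; push_cast; ring
  have h3 : (Ideal.absNorm I) ^ l = n ^ l := by
    rw [← map_pow, ← hI, Ideal.absNorm_span_singleton, hnorm]
    simp
  exact Nat.pow_left_injective (by omega) h3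

/-- the number of solutions attached to one ideal -/
theorem fiber_count (hK : Module.finrank ℚ K = 2) (hD3 : discr K ≤ -3) {α : K}
    (hα : α ^ 2 = ((discr K : ℤ) : K)) (J : Ideal (𝓞 K)) {M L : ℕ} (hM : M < L ^ 6)
    (T : Finset (ℕ × ℕ)) (hT : ∀ p ∈ T, p.1.Prime ∧ L < p.1 ∧ p.2 ^ 2 < M ∧ p.1 ^ 2 ∣ M - p.2 ^ 2 ∧
      ∃ (β : 𝓞 K) (k : ℤ), J = Ideal.span {β} ∧ 2 * (β : K) = (2 * p.2 : ℤ) + k * α) :
    T.card ≤ 30 := by
  classical
  have hD : discr K < 0 := by omega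
  rcases T.eq_empty_or_nonempty with hTe | ⟨p₀, hp₀⟩
  · rw [hTe, card_empty]; exact Nat.zero_le _
  obtain ⟨-, -, -, -, β₀, k₀, hβ₀, hβ₀'⟩ := hT p₀ hp₀
  obtain ⟨α', hα', hr⟩ := rep hK
  have key : ∀ x : ℕ, ∃ q : ℤ × ℤ, x ∈ T.image Prod.snd → q ∈ (Icc (-2 : ℤ) 2) ×ˢ (Icc (-1 : ℤ) 1) ∧
      ∃ (u : 𝓞 K) (k : ℤ), 2 * (u : K) = (q.1 : K) + q.2 * α' ∧
        2 * ((u * β₀ : 𝓞 K) : K) = (2 * x : ℤ) + k * α := by
    intro x
    by_cases hx : x ∈ T.image Prod.snd
    · obtain ⟨p, hp, rfl⟩ := mem_image.mp hx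
      obtain ⟨-, -, -, -, β, k, hβ, hβ'⟩ := hT p hp
      have h1 : Associated β₀ β := by
        rw [← Ideal.span_singleton_eq_span_singleton, ← hβ, ← hβ₀]
      obtain ⟨u, hu⟩ := h1
      obtain ⟨t, k', h2, h3⟩ := hr (u : 𝓞 K)
      have h4 : Algebra.norm ℤ (u : 𝓞 K) = 1 := by
        have h5 : IsUnit (Algebra.norm ℤ (u : 𝓞 K)) := u.isUnit.map _
        have h6 := norm_nonneg' hK hD (u : 𝓞 K)
        rcases Int.isUnit_iff.mp h5 with h | h
        · exact h
        · rw [h] at h6; norm_num at h6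
      rw [h4, mul_one] at h3
      refine ⟨(t, k'), fun _ => ⟨unit_rep hD3 h3, u, k, h2, ?_⟩⟩
      rw [mul_comm (u : 𝓞 K) β₀, hu]
      exact hβ'
    · exact ⟨(0, 0), fun h => absurd h hx⟩
  choose f hf using key
  have hcardX : (T.image Prod.snd).card ≤ 15 := by
    have h1 : (T.image Prod.snd).card ≤ ((Icc (-2 : ℤ) 2) ×ˢ (Icc (-1 : ℤ) 1)).card := by
      apply card_le_card_of_injOn f
      · intro x hx
        exact (hf x hx).1
      · intro x hx x' hx' hff
        obtain ⟨-, u, k, h1, h2⟩ := hf x hx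
        obtain ⟨-, u', k', h1', h2'⟩ := hf x' hx'
        have huu : u = u' := by
          apply RingOfIntegers.coe_injective
          have : (2 : K) * (u : K) = 2 * (u' : K) := by rw [h1, h1', hff]
          exact mul_left_cancel₀ two_ne_zero this
        rw [huu, h2'] at h2
        obtain ⟨e1, -⟩ := indep hD hα h2
        omega
    refine h1.trans ?_
    decide
  have hfib : ∀ x ∈ T.image Prod.snd, (T.filter (fun p => p.2 = x)).card ≤ 2 := by
    intro x hx
    have hinj : Set.InjOn Prod.fst ((T.filter (fun p => p.2 = x)) : Set (ℕ × ℕ)) := by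
      intro p hp p' hp' h
      rw [coe_filter] at hp hp'
      exact Prod.ext h (hp.2.trans hp'.2.symm)
    rw [← card_image_of_injOn hinj]
    obtain ⟨p, hp, hpx⟩ := mem_image.mp hx
    have hxM : x ^ 2 < M := by rw [← hpx]; exact (hT p hp).2.2.1
    apply few_squares (L := L) (M := M - x ^ 2) (by omega) (by omega)
    intro ℓ hℓ
    obtain ⟨p', hp', rfl⟩ := mem_image.mp hℓ
    rw [mem_filter] at hp'
    obtain ⟨h1, h2, h3, h4, -⟩ := hT p' hp'.1
    refine ⟨h1, h2, ?_⟩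
    rw [← hp'.2]; exact h4
  calc T.card = ∑ x ∈ T.image Prod.snd, (T.filter (fun p => p.2 = x)).card :=
        card_eq_sum_card_image Prod.snd T
    _ ≤ ∑ x ∈ T.image Prod.snd, 2 := sum_le_sum hfib
    _ = (T.image Prod.snd).card * 2 := by rw [sum_const, smul_eq_mul]
    _ ≤ 15 * 2 := Nat.mul_le_mul_right _ hcardX
    _ = 30 := by norm_num

end Pool.Agent.T2h80.TL
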