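import Pool.Agent.Y159.QS.Quad

set_option autoImplicit false

/-! Imaginary quadratic fields: elements and ideals of small norm. -/

namespace Pool.Agent.T2h80.TL

open NumberField Finset Pool.Agent.Y159.QS
open scoped nonZeroDivisors

variable {K : Type} [Field K] [NumberField K]

/-- representation of the integers by pairs -/
theorem rep (hK : Module.finrank ℚ K = 2) : ∃ α : K, α ^ 2 = ((discr K : ℤ) : K) ∧
    ∀ γ : 𝓞 K, ∃ t k : ℤ, 2 * (γ : K) = t + k * α ∧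
      4 * Algebra.norm ℤ γ = t ^ 2 - discr K * k ^ 2 := by
  obtain ⟨α, -, hα⟩ := exists_sqrt hK
  refine ⟨α, hα, fun γ => ?_⟩
  obtain ⟨k, hk⟩ := disc_rel hK γ
  have hq := quad_eq hK (γ : K)
  have hta : Algebra.trace ℚ K (γ : K) = (Algebra.trace ℤ (𝓞 K) γ : ℚ) := by
    rw [Algebra.coe_trace_int]
  have hna : Algebra.norm ℚ (γ : K) = (Algebra.norm ℤ γ : ℚ) := by rw [Algebra.coe_norm_int]
  set a := Algebra.trace ℤ (𝓞 K) γ with ha
  set N := Algebra.norm ℤ γ with hN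
  rw [hta, hna, map_intCast, map_intCast] at hq
  have hsq : (2 * (γ : K) - a - k * α) * (2 * (γ : K) - a + k * α) = 0 := by
    have e1 : (((a ^ 2 - 4 * N : ℤ)) : K) = ((k ^ 2 * discr K : ℤ) : K) := by rw [hk]
    push_cast at e1
    linear_combination 4 * hq + e1 - (k : K) ^ 2 * hα
  rcases mul_eq_zero.mp hsq with h | h
  · exact ⟨a, k, by linear_combination h, by linarith⟩
  · exact ⟨a, -k, by push_cast; linear_combination h, by linarith⟩

/-- an element of small norm is a rational integer -/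
theorem small_int (hK : Module.finrank ℚ K = 2) (hD : discr K < 0) (γ : 𝓞 K)
    (h : 4 * Algebra.norm ℤ γ < - discr K) : ∃ c : ℤ, γ = (c : 𝓞 K) ∧ Algebra.norm ℤ γ = c ^ 2 := by
  obtain ⟨α, hα, hr⟩ := rep hK
  obtain ⟨t, k, h1, h2⟩ := hr γ
  have hk : k = 0 := by
    by_contra hk
    have : 1 ≤ k ^ 2 := by
      have := sq_nonneg k
      have h3 : k ^ 2 ≠ 0 := pow_ne_zero 2 hk
      omega
    nlinarith [sq_nonneg t]
  rw [hk] at h1 h2
  have ht : (2 : ℤ) ∣ t := by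
    have : (2 : ℤ) ∣ t ^ 2 := by
      refine ⟨2 * Algebra.norm ℤ γ, by linarith⟩
    exact Int.prime_two.dvd_of_dvd_pow this
  obtain ⟨c, rfl⟩ := ht
  refine ⟨c, ?_, by linarith⟩
  apply RingOfIntegers.coe_injective
  push_cast at h1
  have : (2 : K) * (γ : K) = 2 * c := by rw [h1]; ring
  have h2 : (γ : K) = c := mul_left_cancel₀ two_ne_zero this
  rw [map_intCast]
  exact h2

theorem norm_nonneg' (hK : Module.finrank ℚ K = 2) (hD : discr K < 0) (γ : 𝓞 K) :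
    0 ≤ Algebra.norm ℤ γ := by
  obtain ⟨α, hα, hr⟩ := rep hK
  obtain ⟨t, k, h1, h2⟩ := hr γ
  nlinarith [sq_nonneg t, sq_nonneg k]

/-- an ideal divides its norm -/
theorem cofactor (hK : Module.finrank ℚ K = 2) {I : Ideal (𝓞 K)} (hI : Ideal.absNorm I ≠ 0) :
    ∃ J : Ideal (𝓞 K), I * J = Ideal.span {((Ideal.absNorm I : ℕ) : 𝓞 K)} ∧
      Ideal.absNorm J = Ideal.absNorm I := by
  have h1 : I ∣ Ideal.span {((Ideal.absNorm I : ℕ) : 𝓞 K)} := by
    rw [Ideal.dvd_iff_le, Ideal.span_le, Set.singleton_subset_iff]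
    exact Ideal.absNorm_mem I
  obtain ⟨J, hJ⟩ := h1
  refine ⟨J, hJ.symm, ?_⟩
  have h : Ideal.absNorm I * Ideal.absNorm J = (Ideal.absNorm I) ^ 2 := by
    rw [← map_mul, ← hJ, Ideal.absNorm_span_natCast, RingOfIntegers.rank, hK]
  rw [sq] at h
  exact Nat.eq_of_mul_eq_mul_left (Nat.pos_of_ne_zero hI) h

theorem sq_of_squarefree {a b c : ℕ} (ha : Squarefree a) (hb : Squarefree b) (h : a * b = c ^ 2) :
    a = c ∧ b = c := by
  have hac : a ∣ c := by
    apply (ha.dvd_pow_iff_dvd two_ne_zero).mp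
    exact Dvd.intro b h
  have hbc : b ∣ c := by
    apply (hb.dvd_pow_iff_dvd two_ne_zero).mp
    exact Dvd.intro_left a h
  have hc : 0 < c := by
    rcases Nat.eq_zero_or_pos c with h0 | h0
    · rw [h0, zero_pow two_ne_zero] at h
      rcases Nat.mul_eq_zero.mp h with h1 | h1
      · exact absurd h1 ha.ne_zero
      · exact absurd h1 hb.ne_zero
    · exact h0
  have h1 := Nat.le_of_dvd hc hac
  have h2 := Nat.le_of_dvd hc hbc
  constructor
  · nlinarith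
  · nlinarith

/-- if `𝔞 𝔟'` is principal -/
theorem gen_of_class {I J J' : Ideal (𝓞 K)} (hI : I ≠ ⊥) (hJ : J ≠ ⊥) (hJ' : J' ≠ ⊥)
    (hp : (J * J').IsPrincipal)
    (hc : ClassGroup.mk0 ⟨I, mem_nonZeroDivisors_of_ne_zero hI⟩ =
      ClassGroup.mk0 ⟨J, mem_nonZeroDivisors_of_ne_zero hJ⟩) :
    ∃ γ : 𝓞 K, I * J' = Ideal.span {γ} := by
  have h1 : ClassGroup.mk0 (⟨I * J', mem_nonZeroDivisors_of_ne_zero (mul_ne_zero hI hJ')⟩ :
      (Ideal (𝓞 K))⁰) = 1 := by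
    have e : (⟨I * J', mem_nonZeroDivisors_of_ne_zero (mul_ne_zero hI hJ')⟩ : (Ideal (𝓞 K))⁰) =
      ⟨I, mem_nonZeroDivisors_of_ne_zero hI⟩ * ⟨J', mem_nonZeroDivisors_of_ne_zero hJ'⟩ := rfl
    rw [e, map_mul, hc, ← map_mul]
    exact (ClassGroup.mk0_eq_one_iff _).mpr hp
  have h2 := (ClassGroup.mk0_eq_one_iff _).mp h1
  obtain ⟨γ, hγ⟩ := h2
  exact ⟨γ, hγ⟩

/-- ideals of small squarefree norm in the same class are equal -/
theorem small_distinct (hK : Module.finrank ℚ K = 2) (hD : discr K < 0) {I J : Ideal (𝓞 K)}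
    (hI : I ≠ ⊥) (hJ : J ≠ ⊥) (hsI : Squarefree (Ideal.absNorm I))
    (hsJ : Squarefree (Ideal.absNorm J))
    (hs : 4 * ((Ideal.absNorm I * Ideal.absNorm J : ℕ) : ℤ) < - discr K)
    (hc : ClassGroup.mk0 ⟨I, mem_nonZeroDivisors_of_ne_zero hI⟩ =
      ClassGroup.mk0 ⟨J, mem_nonZeroDivisors_of_ne_zero hJ⟩) : I = J := by
  obtain ⟨J', hJJ, hJn⟩ := cofactor hK hsJ.ne_zero
  have hJ' : J' ≠ ⊥ := by
    rintro rfl
    rw [Ideal.absNorm_bot] at hJn
    exact hsJ.ne_zero hJn.symm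
  obtain ⟨γ, hγ⟩ := gen_of_class hI hJ hJ' (by rw [hJJ]; exact ⟨_, rfl⟩) hc
  have hn : Algebra.norm ℤ γ = ((Ideal.absNorm I * Ideal.absNorm J : ℕ) : ℤ) := by
    have h := Ideal.absNorm_span_singleton γ
    rw [← hγ, map_mul, hJn] at h
    rw [h, Int.natCast_natAbs, abs_of_nonneg (norm_nonneg' hK hD γ)]
  obtain ⟨c, hc1, hc2⟩ := small_int hK hD γ (by rw [hn]; exact hs)
  have h3 : Ideal.absNorm I * Ideal.absNorm J = c.natAbs ^ 2 := by
    have : ((Ideal.absNorm I * Ideal.absNorm J : ℕ) : ℤ) = ((c.natAbs ^ 2 : ℕ) : ℤ) := by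
      rw [← hn, hc2]; push_cast; rw [sq_abs]
    exact_mod_cast this
  obtain ⟨h4, h5⟩ := sq_of_squarefree hsI hsJ h3
  have h6 : I * J' = J * J' := by
    rw [hγ, hJJ, h5, hc1]
    rcases Int.natAbs_eq c with h | h
    · conv_lhs => rw [h]
      simp
    · conv_lhs => rw [h]
      rw [Int.cast_neg, Ideal.span_singleton_neg]
      simp
  exact mul_right_cancel₀ hJ' h6

end Pool.Agent.T2h80.TL
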