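import Pool.Agent.T2h80.TL.Asm

set_option autoImplicit false

/-! The two final bounds. -/

namespace Pool.Agent.T2h80.TL

open NumberField Finset Filter
open scoped nonZeroDivisors Classical Topology

/-- all large `X` -/
theorem all_large (S : Finset ℕ) (hS : ∀ r ∈ S, r.Prime) (D₀ : ℤ) (hD₀ : D₀ ≠ 0) (l : ℕ) (hl : 5 ≤ l) (hodd : Odd l) (ε : ℝ) (hε : 0 < ε) :
    ∃ X₀ : ℕ, ∀ X : ℕ, X₀ ≤ X → ∀ (K : ℤ → Type) [∀ D, Field (K D)] [∀ D, NumberField (K D)],
      (∀ D ∈ locF S D₀ X, Module.finrank ℚ (K D) = 2 ∧ discr (K D) = D) →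
      (X : ℝ) ^ (1 / 2 + min (1 / 3) (2 / (l : ℝ)) - ε) ≤
        ∑ D ∈ locF S D₀ X, ((Nat.card {c : ClassGroup (𝓞 (K D)) // c ^ l = 1} : ℝ) - 1) := by
  have hl5 : (5 : ℝ) ≤ l := by exact_mod_cast hl
  have hl0 : (0 : ℝ) < l := by linarith
  -- it is enough to find the parameters
  have key : ∃ θ δ ε2 : ℝ, 1 ≤ ((l : ℝ) - 1) * θ ∧ 3 / 2 ≤ l * θ ∧ l * θ < 2 ∧ 0 < δ ∧ 0 < ε2 ∧
      2 * θ * ((3 / 2 - 3 / (2 * ((l : ℝ) + 1)) + ε2) - 1 / 2) + 4 * δ ≤ 1 / 2 ∧
      min (1 / 3) (2 / (l : ℝ)) - ε ≤ θ - 4 * δ := by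
    rcases Nat.lt_or_ge l 7 with h | h
    · have h5 : l = 5 := by
        obtain ⟨k, hk⟩ := hodd
        omega
      subst h5
      set e := min (ε / 2) (1 / 30) with he
      have he0 : 0 < e := lt_min (by positivity) (by norm_num)
      have he1 : e ≤ ε / 2 := min_le_left _ _
      have he2 : e ≤ 1 / 30 := min_le_right _ _
      refine ⟨1 / 3 - e, e / 8, e, ?_, ?_, ?_, by positivity, he0, ?_, ?_⟩
      · push_cast; linarith
      · push_cast; linarith
      · push_cast; linarith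
      · push_cast
        have : (3 : ℝ) / (2 * (5 + 1)) = 1 / 4 := by norm_num
        rw [this]
        nlinarith
      · have := min_le_left (1 / 3 : ℝ) (2 / ((5 : ℕ) : ℝ))
        linarith
    · have h7 : (7 : ℝ) ≤ l := by exact_mod_cast h
      set e := min (ε / 2) (1 / (2 * l)) with he
      have he0 : 0 < e := lt_min (by positivity) (by positivity)
      have he1 : e ≤ ε / 2 := min_le_left _ _
      have he2 : e ≤ 1 / (2 * l) := min_le_right _ _
      have hle : l * e ≤ 1 / 2 := by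
        calc l * e ≤ l * (1 / (2 * l)) := by gcongr
          _ = 1 / 2 := by field_simp
      set d := min (ε / 8) (1 / 400) with hd
      have hd0 : 0 < d := lt_min (by positivity) (by norm_num)
      have hd1 : d ≤ ε / 8 := min_le_left _ _
      have hd2 : d ≤ 1 / 400 := min_le_right _ _
      have hlθ : l * (2 / l - e) = 2 - l * e := by field_simp
      have h2l : (2 : ℝ) / l ≤ 2 / 7 := by gcongr
      refine ⟨2 / l - e, d, d, ?_, ?_, ?_, hd0, hd0, ?_, ?_⟩
      · have : ((l : ℝ) - 1) * (2 / l - e) = l * (2 / l - e) - 2 / l + e := by ring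
        rw [this, hlθ]; linarith
      · rw [hlθ]; linarith
      · rw [hlθ]
        have : 0 < l * e := by positivity
        linarith
      · have h1 : 2 * (2 / l - e) ≤ 4 / l := by
          have : (4 : ℝ) / l = 2 * (2 / l) := by ring
          rw [this]; linarith
        have h2 : (3 / 2 - 3 / (2 * ((l : ℝ) + 1)) + d) - 1 / 2 = (2 * l - 1) / (2 * (l + 1)) + d := by
          field_simp; ring
        rw [h2]
        have h3 : 4 / (l : ℝ) * ((2 * l - 1) / (2 * (l + 1))) ≤ 13 / 28 := by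
          rw [div_mul_div_comm, div_le_div_iff₀ (by positivity) (by norm_num)]
          nlinarith
        have h4 : 4 / (l : ℝ) * d ≤ 4 / 7 * (1 / 400) := by gcongr
        have h5 : 0 ≤ (2 * (l : ℝ) - 1) / (2 * (l + 1)) + d := by
          have : 0 ≤ (2 * (l : ℝ) - 1) := by linarith
          positivity
        calc 2 * (2 / ↑l - e) * ((2 * ↑l - 1) / (2 * (↑l + 1)) + d) + 4 * d
            ≤ 4 / l * ((2 * ↑l - 1) / (2 * (↑l + 1)) + d) + 4 * d := by gcongr
          _ = 4 / l * ((2 * ↑l - 1) / (2 * (↑l + 1))) + 4 / l * d + 4 * d := by ring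
          _ ≤ 13 / 28 + 4 / 7 * (1 / 400) + 4 * (1 / 400) := by gcongr
          _ ≤ 1 / 2 := by norm_num
      · have := min_le_right (1 / 3 : ℝ) (2 / (l : ℝ))
        linarith
  obtain ⟨θ, δ, ε2, h1, h2, h3, h4, h5, h6, h7⟩ := key
  obtain ⟨C, hC0, hC⟩ := Pool.Agent.Y159.QS.full l 1 le_rfl (by omega) ε2 h5
  have hτ : (1 : ℝ) ≤ 3 / 2 - 3 / (2 * ((l : ℝ) + 1)) + ε2 := by
    have : 3 / (2 * ((l : ℝ) + 1)) ≤ 1 / 2 := by
      rw [div_le_div_iff₀ (by positivity) (by norm_num)]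
      linarith
    linarith
  have hev := assembly S hS D₀ hD₀ l hl θ _ δ h1 h2 h3 h4 hτ h6 C hC0.le
  rw [eventually_atTop] at hev
  obtain ⟨a, ha⟩ := hev
  refine ⟨max 1 ⌈a⌉₊, ?_⟩
  intro X hX K _ _ hK
  have hX1 : (1 : ℝ) ≤ X := by exact_mod_cast (le_max_left 1 ⌈a⌉₊).trans hX
  have hXa : a ≤ X := by
    refine (Nat.le_ceil a).trans ?_
    exact_mod_cast (le_max_right 1 ⌈a⌉₊).trans hX
  refine le_trans ?_ (ha X hXa X rfl K hK ?_)
  · apply Real.rpow_le_rpow_of_exponent_le hX1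
    linarith
  · intro B hB
    have h := hC B hB ((locF S D₀ X).filter (fun D : ℤ => |(D : ℝ)| ≤ B)) K (by
      intro D hD
      rw [mem_filter] at hD
      exact ⟨hD.2, hK D hD.1⟩)
    simp only [pow_one] at h
    refine h.trans (le_of_eq ?_)
    congr 2
    push_cast
    ring

/-- arbitrarily large `X` -/
theorem some_large (S : Finset ℕ) (hS : ∀ r ∈ S, r.Prime) (D₀ : ℤ) (hD₀ : D₀ ≠ 0) (l : ℕ) (hl : 5 ≤ l) (ε : ℝ) (hε : 0 < ε) (K : ℤ → Type) [∀ D, Field (K D)]
    [∀ D, NumberField (K D)]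
    (hK : ∀ X : ℕ, ∀ D ∈ locF S D₀ X, Module.finrank ℚ (K D) = 2 ∧ discr (K D) = D) (X₁ : ℕ) :
    ∃ X : ℕ, X₁ ≤ X ∧ (X : ℝ) ^ (1 / 2 + 2 / (l : ℝ) - ε) ≤
        ∑ D ∈ locF S D₀ X, ((Nat.card {c : ClassGroup (𝓞 (K D)) // c ^ l = 1} : ℝ) - 1) := by
  by_contra hcon
  push Not at hcon
  have hl5 : (5 : ℝ) ≤ l := by exact_mod_cast hl
  have hl0 : (0 : ℝ) < l := by linarith
  set e := min (ε / 2) (1 / (2 * l)) with he
  have he0 : 0 < e := lt_min (by positivity) (by positivity)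
  have he1 : e ≤ ε / 2 := min_le_left _ _
  have he2 : e ≤ 1 / (2 * l) := min_le_right _ _
  have hle : l * e ≤ 1 / 2 := by
    calc l * e ≤ l * (1 / (2 * l)) := by gcongr
      _ = 1 / 2 := by field_simp
  set d := min (ε / 8) (1 / 40) with hd
  have hd0 : 0 < d := lt_min (by positivity) (by norm_num)
  have hd1 : d ≤ ε / 8 := min_le_left _ _
  have hd2 : d ≤ 1 / 40 := min_le_right _ _
  have hlθ : l * (2 / l - e) = 2 - l * e := by field_simp
  have h2l : (2 : ℝ) / l ≤ 2 / 5 := by gcongr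
  set T : ℤ → ℝ := fun D => (Nat.card {c : ClassGroup (𝓞 (K D)) // c ^ l = 1} : ℝ) with hT
  have hT0 : ∀ D, 0 ≤ T D := fun D => Nat.cast_nonneg _
  set C1 : ℝ := ∑ D ∈ locF S D₀ (X₁ + 1), T D with hC1
  have hC1' : 0 ≤ C1 := sum_nonneg (fun D _ => hT0 D)
  have hbound : ∀ X : ℕ, ∀ B : ℝ, 1 ≤ B →
      ∑ D ∈ (locF S D₀ X).filter (fun D : ℤ => |(D : ℝ)| ≤ B), T D ≤ (C1 + 4) * B ^ (1 : ℝ) := by
    intro X B hB
    rw [Real.rpow_one]
    have hB0 : 0 ≤ B := by linarith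
    have hsub : ∀ Y : ℕ, B < Y → (locF S D₀ X).filter (fun D : ℤ => |(D : ℝ)| ≤ B) ⊆ locF S D₀ Y := by
      intro Y hBY D hD
      rw [mem_filter] at hD
      obtain ⟨hD1, hD2⟩ := hD
      have hneg := negF_le (locF_sub S D₀ X hD1)
      have hDr : |(D : ℝ)| = -(D : ℝ) := by
        apply abs_of_neg
        have h5 : (D : ℝ) ≤ -3 := by exact_mod_cast hneg
        linarith
      rw [locF, mem_filter, mem_Ioo] at hD1 ⊢
      refine ⟨⟨?_, hD1.1.2⟩, hD1.2⟩
      have : -(D : ℝ) < Y := by rw [← hDr]; linarith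
      have h6 : -D < (Y : ℤ) := by exact_mod_cast this
      omega
    by_cases hBX : B < X₁ + 1
    · calc ∑ D ∈ (locF S D₀ X).filter (fun D : ℤ => |(D : ℝ)| ≤ B), T D ≤ C1 := by
            apply sum_le_sum_of_subset_of_nonneg (hsub (X₁ + 1) (by push_cast; exact hBX))
            intro D _ _
            exact hT0 D
        _ ≤ (C1 + 4) * B := by nlinarith
    · rw [not_lt] at hBX
      set Y : ℕ := ⌊B⌋₊ + 1 with hY
      have hBY : B < Y := by rw [hY]; push_cast; exact Nat.lt_floor_add_one B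
      have hYB : (Y : ℝ) ≤ B + 1 := by
        rw [hY]; push_cast
        have := Nat.floor_le hB0
        linarith
      have hY1 : (1 : ℝ) ≤ Y := by linarith
      have hYX : X₁ ≤ Y := by
        have : (X₁ : ℝ) < Y := by linarith
        exact_mod_cast this.le
      have h1 := hcon Y hYX
      have hcard : ((locF S D₀ Y).card : ℝ) ≤ Y := by
        have : (locF S D₀ Y).card ≤ (Finset.Ioo (-(Y : ℤ)) 0).card := by
          rw [locF]; exact card_le_card (filter_subset _ _)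
        rw [Int.card_Ioo] at this
        have h2 : (locF S D₀ Y).card ≤ Y := by omega
        exact_mod_cast h2
      have h3 : ∑ D ∈ locF S D₀ Y, T D = ∑ D ∈ locF S D₀ Y, (T D - 1) + (locF S D₀ Y).card := by
        rw [sum_sub_distrib]
        simp
      have h4 : (Y : ℝ) ^ (1 / 2 + 2 / (l : ℝ) - ε) ≤ Y := by
        calc (Y : ℝ) ^ (1 / 2 + 2 / (l : ℝ) - ε) ≤ (Y : ℝ) ^ (1 : ℝ) := by
              apply Real.rpow_le_rpow_of_exponent_le hY1
              linarith
          _ = Y := Real.rpow_one _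
      calc ∑ D ∈ (locF S D₀ X).filter (fun D : ℤ => |(D : ℝ)| ≤ B), T D ≤ ∑ D ∈ locF S D₀ Y, T D := by
            apply sum_le_sum_of_subset_of_nonneg (hsub Y hBY)
            intro D _ _
            exact hT0 D
        _ ≤ Y + Y := by rw [h3]; linarith
        _ ≤ 4 * B := by linarith
        _ ≤ (C1 + 4) * B := by nlinarith
  have hev := assembly S hS D₀ hD₀ l hl (2 / l - e) 1 d (by
      have : ((l : ℝ) - 1) * (2 / l - e) = l * (2 / l - e) - 2 / l + e := by ring
      rw [this, hlθ]; linarith) (by rw [hlθ]; linarith) (by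
      rw [hlθ]
      have : 0 < l * e := by positivity
      linarith) hd0 le_rfl (by
      have : 2 * (2 / (l : ℝ) - e) * (1 - 1 / 2) = 2 / l - e := by ring
      rw [this]; linarith) (C1 + 4) (by linarith)
  rw [eventually_atTop] at hev
  obtain ⟨a, ha⟩ := hev
  set X := max (X₁ + 1) ⌈a⌉₊ with hX
  have hX1 : (1 : ℝ) ≤ X := by
    have : X₁ + 1 ≤ X := le_max_left _ _
    exact_mod_cast (show 1 ≤ X by omega)
  have hXa : a ≤ X := by
    refine (Nat.le_ceil a).trans ?_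
    exact_mod_cast (le_max_right (X₁ + 1) ⌈a⌉₊)
  have h1 := ha X hXa X rfl K (hK X) (hbound X)
  have h2 := hcon X (by have : X₁ + 1 ≤ X := le_max_left _ _; omega)
  have h3 : (X : ℝ) ^ (1 / 2 + 2 / (l : ℝ) - ε) ≤ (X : ℝ) ^ (1 / 2 + (2 / l - e) - 4 * d) := by
    apply Real.rpow_le_rpow_of_exponent_le hX1
    linarith
  exact absurd (h3.trans h1) (not_le.mpr h2)

end Pool.Agent.T2h80.TL
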