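import Mathlib

set_option autoImplicit false

/-! Squares in `ℚ_r`. -/

namespace Pool.Agent.T2h80.TL

open Polynomial

/-- `1 + 8 k` is a square in `ℤ_r` when `r ∣ 8 k` -/
theorem isSquare_one_add {r : ℕ} [hr : Fact r.Prime] {k : ℤ} (h8 : (8 : ℤ) ∣ k) (hk : (r : ℤ) ∣ k) :
    IsSquare (((1 + k : ℤ)) : ℚ_[r]) := by
  set F : ℤ_[r][X] := X ^ 2 - C ((1 + k : ℤ) : ℤ_[r]) with hF
  have hev : F.eval 1 = -((k : ℤ) : ℤ_[r]) := by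
    rw [hF]; simp
  have hder : (derivative F).eval 1 = 2 := by
    rw [hF]; simp; norm_num
  have hnorm : ‖F.eval 1‖ < ‖(derivative F).eval 1‖ ^ 2 := by
    rw [hev, hder, norm_neg]
    by_cases h2 : r = 2
    · subst h2
      have h1 : ‖((k : ℤ) : ℤ_[2])‖ ≤ ((2 : ℕ) : ℝ) ^ (-(3 : ℕ) : ℤ) := by
        rw [PadicInt.norm_int_le_pow_iff_dvd]
        exact_mod_cast h8
      have h3 : ‖(2 : ℤ_[2])‖ = (2 : ℝ)⁻¹ := by
        have := PadicInt.norm_p (p := 2)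
        simpa using this
      rw [h3]
      refine lt_of_le_of_lt h1 ?_
      norm_num
    · have h1 : ‖((k : ℤ) : ℤ_[r])‖ < 1 := by
        rw [PadicInt.norm_int_lt_one_iff_dvd]
        exact hk
      have h3 : ‖(2 : ℤ_[r])‖ = 1 := by
        have h4 : ¬ ‖((2 : ℤ) : ℤ_[r])‖ < 1 := by
          rw [PadicInt.norm_int_lt_one_iff_dvd]
          intro h
          have h5 : r ∣ 2 := by exact_mod_cast h
          exact h2 ((Nat.prime_dvd_prime_iff_eq hr.out Nat.prime_two).mp h5)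
        have h6 := PadicInt.norm_le_one ((2 : ℤ) : ℤ_[r])
        push_cast at h4 h6
        exact le_antisymm h6 (not_lt.mp h4)
      rw [h3, one_pow]
      exact h1
  obtain ⟨z, hz, -⟩ := hensels_lemma hnorm
  have hz2 : z ^ 2 = ((1 + k : ℤ) : ℤ_[r]) := by
    have : F.eval z = z ^ 2 - ((1 + k : ℤ) : ℤ_[r]) := by rw [hF]; simp
    have hz' : F.eval z = 0 := hz
    rw [this] at hz'
    exact sub_eq_zero.mp hz'
  refine ⟨(z : ℚ_[r]), ?_⟩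
  have := congrArg (fun y : ℤ_[r] => (y : ℚ_[r])) hz2
  push_cast at this ⊢
  rw [← this, sq]

/-- the local condition -/
theorem local_square {M : ℕ} {D₀ D : ℤ} {m ℓ x n l d W : ℕ} (hm : 0 < m) (hℓ : 0 < ℓ)
    (hW : (W : ℤ) = 512 * |D₀| * M ^ 3) (hD : D * (m : ℤ) ^ 2 = -(4 * d))
    (hsum : x ^ 2 + ℓ ^ 2 * d = n ^ l) (hn : (W : ℤ) ∣ (n : ℤ) - 1)
    (hx : (W : ℤ) ∣ (x : ℤ) - (1 + 32 * D₀ * M ^ 2)) {r : ℕ} [hr : Fact r.Prime] (hrM : r ∣ M) :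
    IsSquare (((D * D₀ : ℤ)) : ℚ_[r]) := by
  have h1 : (W : ℤ) ∣ (x : ℤ) ^ 2 - (n : ℤ) ^ l - ((1 + 32 * D₀ * M ^ 2) ^ 2 - 1) := by
    have e : (x : ℤ) ^ 2 - (n : ℤ) ^ l - ((1 + 32 * D₀ * M ^ 2) ^ 2 - 1) =
      ((x : ℤ) - (1 + 32 * D₀ * M ^ 2)) * (x + (1 + 32 * D₀ * M ^ 2)) - ((n : ℤ) ^ l - 1) := by ring
    rw [e]
    apply dvd_sub (hx.mul_right _)
    refine hn.trans ?_
    have := sub_dvd_pow_sub_pow (n : ℤ) 1 l
    rwa [one_pow] at this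
  have hWdvd : (W : ℤ) = 64 * D₀ * M ^ 2 * (8 * M * D₀.sign) := by
    rw [hW]
    have : |D₀| = D₀ * D₀.sign := by rw [mul_comm]; exact (Int.sign_mul_self_eq_abs D₀).symm
    rw [this]; ring
  obtain ⟨t, ht⟩ := h1
  have h2 : ((x : ℤ) ^ 2 - (n : ℤ) ^ l) * D₀ =
      (8 * M * D₀) ^ 2 * (1 + 8 * M * (2 * D₀ * M + D₀.sign * t)) := by
    have e : (x : ℤ) ^ 2 - (n : ℤ) ^ l = 64 * D₀ * M ^ 2 * (8 * M * D₀.sign) * t +
        ((1 + 32 * D₀ * M ^ 2) ^ 2 - 1) := by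
      rw [← hWdvd]; linarith
    rw [e]; ring
  have h3 : D * D₀ * ((m : ℤ) * ℓ) ^ 2 = (2 * (8 * M * D₀)) ^ 2 *
      (1 + 8 * M * (2 * D₀ * M + D₀.sign * t)) := by
    have e : (x : ℤ) ^ 2 + (ℓ : ℤ) ^ 2 * d = (n : ℤ) ^ l := by exact_mod_cast hsum
    calc D * D₀ * ((m : ℤ) * ℓ) ^ 2 = (D * (m : ℤ) ^ 2) * ℓ ^ 2 * D₀ := by ring
      _ = 4 * (((x : ℤ) ^ 2 - (n : ℤ) ^ l) * D₀) := by rw [hD, ← e]; ring
      _ = _ := by rw [h2]; ring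
  have h4 : IsSquare (((1 + 8 * M * (2 * D₀ * M + D₀.sign * t) : ℤ)) : ℚ_[r]) := by
    apply isSquare_one_add
    · exact Dvd.dvd.mul_right (dvd_mul_right _ _) _
    · have : (r : ℤ) ∣ (M : ℤ) := by exact_mod_cast hrM
      exact Dvd.dvd.mul_right (this.mul_left _) _
  obtain ⟨y, hy⟩ := h4
  have hmℓ : (((m : ℤ) * ℓ : ℤ) : ℚ_[r]) ≠ 0 := by
    have : (m : ℤ) * ℓ ≠ 0 := by positivity
    exact_mod_cast this
  refine ⟨(2 * (8 * M * D₀) : ℤ) * y / ((m : ℤ) * ℓ : ℤ), ?_⟩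
  have h5 : ((D * D₀ * ((m : ℤ) * ℓ) ^ 2 : ℤ) : ℚ_[r]) = (((2 * (8 * M * D₀)) ^ 2 *
      (1 + 8 * M * (2 * D₀ * M + D₀.sign * t)) : ℤ) : ℚ_[r]) := by rw [h3]
  rw [Int.cast_mul (D * D₀), Int.cast_mul ((2 * (8 * M * D₀)) ^ 2), hy, Int.cast_pow, Int.cast_pow] at h5
  rw [div_mul_div_comm, eq_div_iff (mul_ne_zero hmℓ hmℓ), ← sq, h5]
  ring

end Pool.Agent.T2h80.TL
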