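import Pool.Agent.T2h80.TL.Tor
import Pool.Agent.T2h80.TL.Local

set_option autoImplicit false

/-! The count of the solutions and the count of the torsion classes. -/

namespace Pool.Agent.T2h80.TL

open NumberField Finset Pool.Agent.Y159.QS
open scoped nonZeroDivisors Classical

/-- negative fundamental discriminants `-X < D < 0` -/
noncomputable def negF (X : ℕ) : Finset ℤ :=
  (Finset.Ioo (-(X : ℤ)) (0 : ℤ)).filter (fun D : ℤ =>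
    (D % 4 = 1 ∧ D ≠ 1 ∧ Squarefree D) ∨
    (∃ m : ℤ, D = 4 * m ∧ (m % 4 = 2 ∨ m % 4 = 3) ∧ Squarefree m))

theorem negF_le {X : ℕ} {D : ℤ} (h : D ∈ negF X) : D ≤ -3 := by
  rw [negF, mem_filter, mem_Ioo] at h
  obtain ⟨⟨-, h0⟩, h1 | ⟨m, hm, h2, -⟩⟩ := h
  · omega
  · omega

/-- the solutions -/
noncomputable def G (l Q L W a : ℕ) : Finset (ℕ × ℕ × ℕ) :=
  ((range (16 * Q ^ 2 + 1)) ×ˢ ((Ioc L (4 * L)).filter Nat.Prime) ×ˢ (range (Q ^ l))).filter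
    (fun g => (∃ q₁ q₂ : ℕ, q₁.Prime ∧ q₂.Prime ∧ Q < q₁ ∧ Q < q₂ ∧ q₁ ≤ 4 * Q ∧ q₂ ≤ 4 * Q ∧
      q₁ ≠ q₂ ∧ g.1 = q₁ * q₂) ∧ g.2.1 ^ 2 ∣ g.1 ^ l - g.2.2 ^ 2 ∧ Nat.Coprime g.2.2 g.1 ∧
      g.1 % W = 1 % W ∧ g.2.2 % W = a % W)

/-- the primes in `(Q, 4 Q]` which are `1` modulo `W` -/
noncomputable def PW (Q W : ℕ) : Finset ℕ :=
  (Ioc Q (4 * Q)).filter (fun q => q.Prime ∧ q % W = 1 % W)

theorem one_pair {l Q L W a ℓ q₁ q₂ : ℕ} (hQ : 3 ≤ Q) (hQL : 4 * Q ≤ L) (hW : 0 < W)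
    (hWQ : W ≤ Q) (hw1 : q₁ % W = 1 % W) (hw2 : q₂ % W = 1 % W) (hℓ : ℓ.Prime)
    (hℓL : L < ℓ) (hℓL' : ℓ ≤ 4 * L) (h1 : q₁.Prime) (h2 : q₂.Prime) (hQ1 : Q < q₁) (hQ2 : Q < q₂)
    (hQ1' : q₁ ≤ 4 * Q) (hQ2' : q₂ ≤ 4 * Q) (h12 : q₁ ≠ q₂)
    (hleg : haveI : Fact ℓ.Prime := ⟨hℓ⟩; legendreSym ℓ ((q₁ * q₂ : ℕ) : ℤ) = 1) :
    Q ^ l / (48 * L ^ 2 * W) ≤
      ((G l Q L W a).filter (fun g => g.2.1 = ℓ ∧ g.1 = q₁ * q₂)).card := by
  have : Fact ℓ.Prime := ⟨hℓ⟩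
  set n := q₁ * q₂ with hn
  have hne1 : q₁ ≠ ℓ := by omega
  have hne2 : q₂ ≠ ℓ := by omega
  have hndvd1 : ¬ ℓ ∣ q₁ := fun h => hne1 ((Nat.prime_dvd_prime_iff_eq hℓ h1).mp h).symm
  have hndvd2 : ¬ ℓ ∣ q₂ := fun h => hne2 ((Nat.prime_dvd_prime_iff_eq hℓ h2).mp h).symm
  have hndvd : ¬ ℓ ∣ n := by
    intro h
    rcases (Nat.Prime.dvd_mul hℓ).mp h with h | h
    · exact hndvd1 h
    · exact hndvd2 h
  have hndvd' : ¬ (ℓ : ℤ) ∣ (n : ℤ) := by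
    intro h; exact hndvd (by exact_mod_cast h)
  have hn0 : (((n : ℕ) : ℤ) : ZMod ℓ) ≠ 0 := by
    rw [Int.cast_natCast, Ne, ZMod.natCast_eq_zero_iff]; exact hndvd
  obtain ⟨b, hb⟩ : ∃ b : ℤ, (ℓ : ℤ) ∣ b ^ 2 - (n : ℤ) := by
    obtain ⟨b, hb⟩ := (legendreSym.eq_one_iff ℓ hn0).mp hleg
    refine ⟨(b.val : ℤ), ?_⟩
    rw [← ZMod.intCast_zmod_eq_zero_iff_dvd]
    push_cast at hb ⊢
    rw [ZMod.natCast_zmod_val, hb]
    ring
  have hℓ2 : ℓ ≠ 2 := by omega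
  obtain ⟨ν, hν⟩ := root_sq hℓ hℓ2 hb hndvd'
  have hℓ0 : 0 < ℓ ^ 2 := by have := hℓ.pos; positivity
  set r : ℕ := ((ν ^ l) % ((ℓ ^ 2 : ℕ) : ℤ)).toNat with hr
  have hrnn : 0 ≤ (ν ^ l) % ((ℓ ^ 2 : ℕ) : ℤ) := Int.emod_nonneg _ (by exact_mod_cast hℓ0.ne')
  have hr1 : (r : ℤ) = (ν ^ l) % ((ℓ ^ 2 : ℕ) : ℤ) := Int.toNat_of_nonneg hrnn
  have hrlt : r < ℓ ^ 2 := by
    have : (r : ℤ) < ((ℓ ^ 2 : ℕ) : ℤ) := by
      rw [hr1]; exact Int.emod_lt_of_pos _ (by exact_mod_cast hℓ0)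
    exact_mod_cast this
  have hroot : ∀ x : ℕ, x % ℓ ^ 2 = r → ((ℓ ^ 2 : ℕ) : ℤ) ∣ (x : ℤ) ^ 2 - (n : ℤ) ^ l := by
    intro x hx
    have e1 : ((x : ℤ)) % ((ℓ ^ 2 : ℕ) : ℤ) = (ν ^ l) % ((ℓ ^ 2 : ℕ) : ℤ) := by
      rw [← hr1, ← hx]; push_cast; rfl
    have e2 : ((ℓ ^ 2 : ℕ) : ℤ) ∣ (x : ℤ) - ν ^ l := by
      have := Int.emod_emod_of_dvd
      exact Int.ModEq.dvd (Int.ModEq.symm e1)
    have e3 : ((ℓ ^ 2 : ℕ) : ℤ) ∣ (ν ^ 2) ^ l - (n : ℤ) ^ l := by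
      refine dvd_trans ?_ (sub_dvd_pow_sub_pow (ν ^ 2) (n : ℤ) l)
      push_cast; exact hν
    have e4 : (x : ℤ) ^ 2 - (n : ℤ) ^ l = ((x : ℤ) - ν ^ l) * (x + ν ^ l) +
        ((ν ^ 2) ^ l - (n : ℤ) ^ l) := by
      rw [← pow_mul, mul_comm 2 l, pow_mul]; ring
    rw [e4]
    exact dvd_add (e2.mul_right _) e3
  have hcopW : Nat.Coprime (ℓ ^ 2) W := by
    apply Nat.Coprime.pow_left
    rw [Nat.Prime.coprime_iff_not_dvd hℓ]
    intro h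
    have := Nat.le_of_dvd hW h
    omega
  obtain ⟨k, hk1, hk2⟩ := Nat.chineseRemainder hcopW r a
  set r' := k % (ℓ ^ 2 * W) with hr'
  have hm0 : 0 < ℓ ^ 2 * W := Nat.mul_pos hℓ0 hW
  have hr'lt : r' < ℓ ^ 2 * W := Nat.mod_lt _ hm0
  have hxmod : ∀ x : ℕ, x % (ℓ ^ 2 * W) = r' → x % ℓ ^ 2 = r ∧ x % W = a % W := by
    intro x hx
    constructor
    · have h1 : x % ℓ ^ 2 = k % ℓ ^ 2 := by
        rw [← Nat.mod_mul_right_mod x (ℓ ^ 2) W, hx, hr', Nat.mod_mul_right_mod]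
      rw [h1]
      have h2 : k % ℓ ^ 2 = r % ℓ ^ 2 := hk1
      rw [h2, Nat.mod_eq_of_lt hrlt]
    · have h1 : x % W = k % W := by
        rw [← Nat.mod_mul_left_mod x (ℓ ^ 2) W, hx, hr', Nat.mod_mul_left_mod]
      rw [h1]
      exact hk2
  have hm1 : ¬ q₁ ∣ ℓ ^ 2 * W := by
    intro h
    rcases (Nat.Prime.dvd_mul h1).mp h with h | h
    · exact hne1 ((Nat.prime_dvd_prime_iff_eq h1 hℓ).mp (h1.dvd_of_dvd_pow h))
    · have := Nat.le_of_dvd hW h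
      omega
  have hm2 : ¬ q₂ ∣ ℓ ^ 2 * W := by
    intro h
    rcases (Nat.Prime.dvd_mul h2).mp h with h | h
    · exact hne2 ((Nat.prime_dvd_prime_iff_eq h2 hℓ).mp (h2.dvd_of_dvd_pow h))
    · have := Nat.le_of_dvd hW h
      omega
  set I := Q ^ l / (48 * L ^ 2 * W) with hI
  have hcnt := count_prog (I := I) h1 h2 (by omega) (by omega) hm1 hm2 hm0 hr'lt
  have hIle : 3 * (ℓ ^ 2 * W) * I ≤ Q ^ l := by
    have h5 : 3 * (ℓ ^ 2 * W) ≤ 48 * L ^ 2 * W := by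
      have h6 : ℓ ^ 2 ≤ (4 * L) ^ 2 := Nat.pow_le_pow_left hℓL' 2
      calc 3 * (ℓ ^ 2 * W) = 3 * ℓ ^ 2 * W := by ring
        _ ≤ 3 * (4 * L) ^ 2 * W := by gcongr
        _ = 48 * L ^ 2 * W := by ring
    calc 3 * (ℓ ^ 2 * W) * I ≤ 48 * L ^ 2 * W * I := Nat.mul_le_mul_right _ h5
      _ ≤ Q ^ l := Nat.mul_div_le _ _
  have hQn : Q ^ 2 < n := by
    rw [hn, sq]
    exact Nat.mul_lt_mul'' hQ1 hQ2
  refine hcnt.trans ?_
  refine card_le_card_of_injOn (fun x => (n, ℓ, x)) ?_ ?_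
  · intro x hx
    simp only [coe_filter, mem_range] at hx
    obtain ⟨hx1, hx2, hx3⟩ := hx
    have hxQ : x < Q ^ l := lt_of_lt_of_le hx1 hIle
    have hxn : x ^ 2 < n ^ l := by
      calc x ^ 2 < (Q ^ l) ^ 2 := Nat.pow_lt_pow_left hxQ two_ne_zero
        _ = (Q ^ 2) ^ l := by rw [← pow_mul, ← pow_mul, mul_comm]
        _ ≤ n ^ l := Nat.pow_le_pow_left hQn.le l
    rw [mem_coe, mem_filter]
    refine ⟨?_, rfl, rfl⟩
    rw [G, mem_filter]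
    refine ⟨?_, ⟨q₁, q₂, h1, h2, hQ1, hQ2, hQ1', hQ2', h12, rfl⟩, ?_, hx3, ?_, (hxmod x hx2).2⟩
    · rw [mem_product, mem_product, mem_range, mem_filter, mem_Ioc, mem_range]
      refine ⟨?_, ⟨⟨hℓL, hℓL'⟩, hℓ⟩, hxQ⟩
      have : n ≤ (4 * Q) * (4 * Q) := Nat.mul_le_mul hQ1' hQ2'
      have e : (4 * Q) * (4 * Q) = 16 * Q ^ 2 := by ring
      show n < 16 * Q ^ 2 + 1
      omega
    · have h6 := hroot x (hxmod x hx2).1
      have h7 : ((ℓ ^ 2 : ℕ) : ℤ) ∣ ((n ^ l - x ^ 2 : ℕ) : ℤ) := by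
        rw [Nat.cast_sub hxn.le]
        push_cast at h6 ⊢
        rw [← neg_sub]
        exact (dvd_neg).mpr h6
      exact_mod_cast h7
    · show (q₁ * q₂) % W = 1 % W
      rw [Nat.mul_mod, hw1, hw2, ← Nat.mul_mod]
  · intro x _ y _ h
    simp only [Prod.mk.injEq, true_and] at h
    exact h

/-- lower bound for the number of solutions -/
theorem card_G {l Q L W a : ℕ} (hQ : 3 ≤ Q) (hQL : 4 * Q ≤ L) (hW : 0 < W)
    (hWQ : W ≤ Q) : Q ^ l / (48 * L ^ 2 * W) * (((PW Q W).card / 2).choose 2) *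
      ((Ioc L (4 * L)).filter Nat.Prime).card ≤ (G l Q L W a).card := by
  apply mul_card_image_le_card_of_maps_to (f := fun g : ℕ × ℕ × ℕ => g.2.1)
  · intro g hg
    rw [G, mem_filter, mem_product, mem_product] at hg
    exact hg.1.2.1
  · intro ℓ hℓ
    rw [mem_filter, mem_Ioc] at hℓ
    obtain ⟨⟨hℓ1, hℓ2⟩, hℓp⟩ := hℓ
    have : Fact ℓ.Prime := ⟨hℓp⟩
    obtain ⟨A, hAP, hA1, hA2⟩ := qr_pairs (ℓ := ℓ) (PW Q W) (by
      intro q hq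
      rw [PW, mem_filter, mem_Ioc] at hq
      exact ⟨hq.2.1, by omega⟩)
    set N : Finset ℕ := (A.powersetCard 2).image (fun s => ∏ q ∈ s, q) with hN
    have hNc : N.card = A.card.choose 2 := by
      rw [hN, card_image_of_injOn, card_powersetCard]
      intro s hs t ht hst
      rw [mem_coe, mem_powersetCard] at hs ht
      have hp : ∀ u : Finset ℕ, u ⊆ A → (∏ q ∈ u, q).primeFactors = u := by
        intro u hu
        apply Nat.primeFactors_prod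
        intro p hp
        exact (mem_filter.mp (hAP (hu hp))).2.1
      have e := congrArg Nat.primeFactors hst
      simp only at e
      rw [hp s hs.1, hp t ht.1] at e
      exact e
    calc Q ^ l / (48 * L ^ 2 * W) * (((PW Q W).card / 2).choose 2)
        ≤ Q ^ l / (48 * L ^ 2 * W) * N.card := by
          apply Nat.mul_le_mul_left
          rw [hNc]
          exact Nat.choose_le_choose 2 (by omega)
      _ ≤ (((G l Q L W a).filter (fun g => g.2.1 = ℓ)).filter (fun g => g.1 ∈ N)).card := by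
          apply mul_card_image_le_card_of_maps_to (f := fun g : ℕ × ℕ × ℕ => g.1)
          · intro g hg
            exact (mem_filter.mp hg).2
          · intro n hn
            obtain ⟨s, hs, rfl⟩ := mem_image.mp hn
            rw [mem_powersetCard] at hs
            obtain ⟨q₁, q₂, h12, rfl⟩ := card_eq_two.mp hs.2
            have h1 := hs.1 (mem_insert_self q₁ _)
            have h2 := hs.1 (mem_insert_of_mem (mem_singleton_self q₂))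
            have h1' := mem_filter.mp (hAP h1)
            have h2' := mem_filter.mp (hAP h2)
            rw [mem_Ioc] at h1' h2'
            have hfin := one_pair (l := l) (a := a) hQ hQL hW hWQ h1'.2.2 h2'.2.2 hℓp hℓ1 hℓ2
              h1'.2.1 h2'.2.1 h1'.1.1 h2'.1.1 h1'.1.2 h2'.1.2 h12 (hA2 q₁ h1 q₂ h2)
            refine hfin.trans (card_le_card ?_)
            intro g hg
            rw [mem_filter] at hg
            rw [mem_filter, mem_filter, mem_filter, prod_pair h12]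
            refine ⟨⟨⟨hg.1, hg.2.1⟩, ?_⟩, hg.2.2⟩
            rw [hg.2.2]
            rw [prod_pair h12] at hn
            exact hn
      _ ≤ _ := card_le_card (filter_subset _ _)

/-- the count in one field -/
theorem field_count {K : Type} [Field K] [NumberField K] (hK : Module.finrank ℚ K = 2)
    (hD3 : discr K ≤ -3) {l Q L W a : ℕ} (hl : 1 ≤ l) (hQ : 3 ≤ Q) (hL6 : (16 * Q ^ 2) ^ l < L ^ 6)
    (T : Finset (ℕ × ℕ × ℕ)) (hTG : T ⊆ G l Q L W a)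
    (hT : ∀ g ∈ T, ∃ d m : ℕ, discr K * (m : ℤ) ^ 2 = -(4 * d) ∧
      g.2.2 ^ 2 + g.2.1 ^ 2 * d = g.1 ^ l) :
    ∃ 𝒜 : Finset (Ideal (𝓞 K)), T.card ≤ 30 * 𝒜.card ∧
      ∀ I ∈ 𝒜, Squarefree (Ideal.absNorm I) ∧ Q ^ 2 < Ideal.absNorm I ∧
        Ideal.absNorm I ≤ 16 * Q ^ 2 ∧ ∃ β : 𝓞 K, I ^ l = Ideal.span {β} := by
  have hD : discr K < 0 := by omega
  obtain ⟨α, hα, -⟩ := rep hK
  have hn : ∀ g ∈ G l Q L W a, Squarefree g.1 ∧ Q ^ 2 < g.1 ∧ g.1 ≤ 16 * Q ^ 2 ∧ Odd g.1 := by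
    intro g hg
    rw [G, mem_filter] at hg
    obtain ⟨-, ⟨q₁, q₂, h1, h2, hQ1, hQ2, hQ1', hQ2', h12, hn⟩, -, -, -, -⟩ := hg
    rw [hn]
    refine ⟨?_, ?_, ?_, ?_⟩
    · rw [Nat.squarefree_mul ((Nat.coprime_primes h1 h2).mpr h12)]
      exact ⟨h1.squarefree, h2.squarefree⟩
    · rw [sq]; exact Nat.mul_lt_mul'' hQ1 hQ2
    · calc q₁ * q₂ ≤ (4 * Q) * (4 * Q) := Nat.mul_le_mul hQ1' hQ2'
        _ = 16 * Q ^ 2 := by ring
    · exact (h1.odd_of_ne_two (by omega)).mul (h2.odd_of_ne_two (by omega))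
  have key : ∀ g : ℕ × ℕ × ℕ, ∃ I : Ideal (𝓞 K), g ∈ T → Ideal.absNorm I = g.1 ∧
      ∃ (β : 𝓞 K) (k : ℤ), I ^ l = Ideal.span {β} ∧ 2 * (β : K) = (2 * g.2.2 : ℤ) + k * α := by
    intro g
    by_cases hg : g ∈ T
    · obtain ⟨d, m, h1, h2⟩ := hT g hg
      have h3 := hTG hg
      have h4 := hn g h3
      rw [G, mem_filter] at h3
      obtain ⟨I, β, k, h5, h6, h7⟩ := ideal_of_eq hK hD hα hl h1 h2 h3.2.2.2.1 h4.2.2.2
      exact ⟨I, fun _ => ⟨h5, β, k, h6, h7⟩⟩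
    · exact ⟨⊥, fun h => absurd h hg⟩
  choose f hf using key
  refine ⟨T.image f, ?_, ?_⟩
  · apply card_le_mul_card_image
    intro J hJ
    obtain ⟨g₀, hg₀, hg₀J⟩ := mem_image.mp hJ
    have hinj : Set.InjOn (fun g : ℕ × ℕ × ℕ => g.2) ((T.filter (fun g => f g = J)) : Set _) := by
      intro g hg g' hg' h
      rw [mem_coe, mem_filter] at hg hg'
      have e1 := (hf g hg.1).1
      have e2 := (hf g' hg'.1).1
      rw [hg.2] at e1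
      rw [hg'.2] at e2
      exact Prod.ext (e1.symm.trans e2) h
    rw [← card_image_of_injOn hinj]
    have hJn : Ideal.absNorm J = g₀.1 := by rw [← hg₀J]; exact (hf g₀ hg₀).1
    apply fiber_count hK hD3 hα (J ^ l) (M := g₀.1 ^ l) (L := L)
    · exact lt_of_le_of_lt (Nat.pow_le_pow_left (hn g₀ (hTG hg₀)).2.2.1 l) hL6
    · intro p hp
      obtain ⟨g, hg, rfl⟩ := mem_image.mp hp
      rw [mem_filter] at hg
      obtain ⟨hgT, hgJ⟩ := hg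
      obtain ⟨h5, β, k, h6, h7⟩ := hf g hgT
      have hgg : g.1 = g₀.1 := by rw [← h5, hgJ, hJn]
      have h3 := hTG hgT
      have h4 := hn g h3
      rw [G, mem_filter, mem_product, mem_product, mem_filter, mem_Ioc, mem_range, mem_range] at h3
      obtain ⟨⟨-, ⟨⟨hL1, -⟩, hpr⟩, hx⟩, -, hdvd, -, -, -⟩ := h3
      refine ⟨hpr, hL1, ?_, ?_, β, k, ?_, h7⟩
      · calc g.2.2 ^ 2 < (Q ^ l) ^ 2 := Nat.pow_lt_pow_left hx two_ne_zero
          _ = (Q ^ 2) ^ l := by rw [← pow_mul, ← pow_mul, mul_comm]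
          _ ≤ g₀.1 ^ l := by rw [← hgg]; exact Nat.pow_le_pow_left h4.2.1.le l
      · rw [← hgg]; exact hdvd
      · rw [← hgJ]; exact h6
  · intro I hI
    obtain ⟨g, hg, rfl⟩ := mem_image.mp hI
    obtain ⟨h5, β, k, h6, -⟩ := hf g hg
    rw [h5]
    obtain ⟨a, b, c, -⟩ := hn g (hTG hg)
    exact ⟨a, b, c, β, h6⟩

/-- the discriminant attached to a solution -/
theorem disc_of_G {l Q L W a X : ℕ} (hX : 4 * (16 * Q ^ 2) ^ l < X * L ^ 2)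
    {g : ℕ × ℕ × ℕ} (hg : g ∈ G l Q L W a) : ∃ D ∈ negF X, ∃ d m : ℕ, 0 < m ∧ 0 < g.2.1 ∧
      D * (m : ℤ) ^ 2 = -(4 * d) ∧ g.2.2 ^ 2 + g.2.1 ^ 2 * d = g.1 ^ l := by
  rw [G, mem_filter, mem_product, mem_product, mem_filter, mem_Ioc, mem_range, mem_range] at hg
  obtain ⟨⟨hn, ⟨⟨hL1, hL2⟩, hpr⟩, hx⟩, ⟨q₁, q₂, h1, h2, hQ1, hQ2, hQ1', hQ2', h12, hnn⟩, hdvd, hcop,
    -, -⟩ := hg
  have hQn : Q ^ 2 < g.1 := by
    rw [hnn, sq]; exact Nat.mul_lt_mul'' hQ1 hQ2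
  have hxn : g.2.2 ^ 2 < g.1 ^ l := by
    calc g.2.2 ^ 2 < (Q ^ l) ^ 2 := Nat.pow_lt_pow_left hx two_ne_zero
      _ = (Q ^ 2) ^ l := by rw [← pow_mul, ← pow_mul, mul_comm]
      _ ≤ g.1 ^ l := Nat.pow_le_pow_left hQn.le l
  obtain ⟨d, hd⟩ := hdvd
  have hd0 : 0 < d := by
    rcases Nat.eq_zero_or_pos d with h | h
    · rw [h, mul_zero] at hd; omega
    · exact h
  obtain ⟨D, m, hm0, hD0, hDm, hfund⟩ := fund_part hd0
  have hsum : g.2.2 ^ 2 + g.2.1 ^ 2 * d = g.1 ^ l := by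
    rw [← hd]; exact Nat.add_sub_cancel' hxn.le
  refine ⟨D, ?_, d, m, hm0, hpr.pos, hDm, hsum⟩
  rw [negF, mem_filter, mem_Ioo]
  refine ⟨⟨?_, hD0⟩, hfund⟩
  have h5 : 4 * d * L ^ 2 < X * L ^ 2 := by
    calc 4 * d * L ^ 2 ≤ 4 * d * g.2.1 ^ 2 := Nat.mul_le_mul_left _ (Nat.pow_le_pow_left hL1.le 2)
      _ = 4 * (g.2.1 ^ 2 * d) := by ring
      _ ≤ 4 * g.1 ^ l := by rw [← hsum]; omega
      _ ≤ 4 * (16 * Q ^ 2) ^ l := Nat.mul_le_mul_left _ (Nat.pow_le_pow_left (by omega) l)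
      _ < X * L ^ 2 := hX
  have h6 : 4 * d < X := Nat.lt_of_mul_lt_mul_right h5
  have h7 : -D ≤ 4 * d := by
    have h8 : (1 : ℤ) ≤ (m : ℤ) ^ 2 := by
      have : (1 : ℤ) ≤ m := by exact_mod_cast hm0
      nlinarith
    nlinarith
  have h9 : ((4 * d : ℕ) : ℤ) < X := by exact_mod_cast h6
  push_cast at h9
  omega

/-- **The main count.** -/
theorem main_count {l Q L W a X : ℕ} (hl : 1 ≤ l) (hQ : 3 ≤ Q) (hQL : 4 * Q ≤ L) (hW : 0 < W)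
    (hWQ : W ≤ Q) (hL6 : (16 * Q ^ 2) ^ l < L ^ 6) (hX : 4 * (16 * Q ^ 2) ^ l < X * L ^ 2)
    (𝒟 : Finset ℤ) (h𝒟 : 𝒟 ⊆ negF X) (h𝒟G : ∀ D ∈ negF X, ∀ g ∈ G l Q L W a, ∀ d m : ℕ, 0 < m →
      0 < g.2.1 → D * (m : ℤ) ^ 2 = -(4 * d) → g.2.2 ^ 2 + g.2.1 ^ 2 * d = g.1 ^ l → D ∈ 𝒟)
    (K : ℤ → Type) [∀ D, Field (K D)] [∀ D, NumberField (K D)]
    (hK : ∀ D ∈ 𝒟, Module.finrank ℚ (K D) = 2 ∧ discr (K D) = D) :
    ((Q ^ l / (48 * L ^ 2 * W) * (((PW Q W).card / 2).choose 2) *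
      ((Ioc L (4 * L)).filter Nat.Prime).card : ℕ) : ℝ) ≤
      30 * ∑ D ∈ 𝒟, ((Nat.card {c : ClassGroup (𝓞 (K D)) // c ^ l = 1} : ℝ) - 1) +
      95040 * (Q : ℝ) ^ 2 * ∑ D ∈ 𝒟.filter (fun D => -D ≤ 1024 * (Q : ℤ) ^ 4),
        (Nat.card {c : ClassGroup (𝓞 (K D)) // c ^ l = 1} : ℝ) / √|(D : ℝ)| := by
  set T : ℤ → ℝ := fun D => (Nat.card {c : ClassGroup (𝓞 (K D)) // c ^ l = 1} : ℝ) with hTd
  have hT1 : ∀ D, 1 ≤ T D := by
    intro D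
    have h1 : 0 < Nat.card {c : ClassGroup (𝓞 (K D)) // c ^ l = 1} :=
      Nat.card_pos_iff.mpr ⟨⟨⟨1, one_pow l⟩⟩, inferInstance⟩
    rw [hTd]
    simp only
    exact_mod_cast h1
  have key : ∀ g : ℕ × ℕ × ℕ, ∃ D : ℤ, g ∈ G l Q L W a → D ∈ 𝒟 ∧ ∃ d m : ℕ,
      D * (m : ℤ) ^ 2 = -(4 * d) ∧ g.2.2 ^ 2 + g.2.1 ^ 2 * d = g.1 ^ l := by
    intro g
    by_cases hg : g ∈ G l Q L W a
    · obtain ⟨D, h1, d, m, h2, h3, h4, h5⟩ := disc_of_G hX hg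
      exact ⟨D, fun _ => ⟨h𝒟G D h1 g hg d m h2 h3 h4 h5, d, m, h4, h5⟩⟩
    · exact ⟨0, fun h => absurd h hg⟩
  choose f hf using key
  have hlow := card_G (l := l) (a := a) hQ hQL hW hWQ
  have hfib : (G l Q L W a).card = ∑ D ∈ 𝒟, ((G l Q L W a).filter (fun g => f g = D)).card :=
    card_eq_sum_card_fiberwise (fun g hg => (hf g hg).1)
  have hQ0 : (0 : ℝ) < Q := by exact_mod_cast (show 0 < Q by omega)
  have hbound : ∀ D ∈ 𝒟, (((G l Q L W a).filter (fun g => f g = D)).card : ℝ) ≤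
      30 * (T D - 1) + (if -D ≤ 1024 * (Q : ℤ) ^ 4 then 95040 * (Q : ℝ) ^ 2 * (T D / √|(D : ℝ)|)
        else 0) := by
    intro D hD
    obtain ⟨hK1, hK2⟩ := hK D hD
    have hD3 : discr (K D) ≤ -3 := by rw [hK2]; exact negF_le (h𝒟 hD)
    have hDneg : discr (K D) < 0 := by omega
    obtain ⟨𝒜, h1, h2⟩ := field_count hK1 hD3 hl hQ hL6 ((G l Q L W a).filter (fun g => f g = D))
      (filter_subset _ _) (by
        intro g hg
        rw [mem_filter] at hg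
        obtain ⟨-, d, m, h3, h4⟩ := hf g hg.1
        refine ⟨d, m, ?_, h4⟩
        rw [hK2, ← hg.2]; exact h3)
    have h1' : (((G l Q L W a).filter (fun g => f g = D)).card : ℝ) ≤ 30 * (𝒜.card : ℝ) := by
      exact_mod_cast h1
    split_ifs with hsm
    · -- small discriminant
      have hDr : |(D : ℝ)| = -(D : ℝ) := by
        apply abs_of_neg
        have := negF_le (h𝒟 hD)
        have h5 : (D : ℝ) ≤ -3 := by exact_mod_cast this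
        linarith
      have hDpos : 0 < |(D : ℝ)| := by
        rw [hDr]
        have h5 : (D : ℝ) ≤ -3 := by exact_mod_cast (negF_le (h𝒟 hD))
        linarith
      set s := √|(D : ℝ)| with hs
      have hs0 : 0 < s := Real.sqrt_pos.mpr hDpos
      have hs2 : s ^ 2 = -(D : ℝ) := by rw [hs, Real.sq_sqrt hDpos.le, hDr]
      set κ : ℕ := ⌊32 * (Q : ℝ) ^ 2 / s⌋₊ with hκ
      have hκ1 : 32 * (Q : ℝ) ^ 2 / s < κ + 1 := Nat.lt_floor_add_one _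
      have hκ2 : (κ : ℝ) ≤ 32 * (Q : ℝ) ^ 2 / s := Nat.floor_le (by positivity)
      have hκ3 : (32 * (Q ^ 2 : ℕ) : ℤ) ^ 2 < - discr (K D) * (κ + 1) ^ 2 := by
        rw [hK2]
        have h5 : 32 * (Q : ℝ) ^ 2 < (κ + 1) * s := by
          rwa [div_lt_iff₀ hs0] at hκ1
        have h6 : (32 * (Q : ℝ) ^ 2) ^ 2 < -(D : ℝ) * (κ + 1) ^ 2 := by
          calc (32 * (Q : ℝ) ^ 2) ^ 2 < ((κ + 1) * s) ^ 2 :=
                pow_lt_pow_left₀ h5 (by positivity) two_ne_zero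
            _ = -(D : ℝ) * (κ + 1) ^ 2 := by rw [mul_pow, hs2]; ring
        exact_mod_cast h6
      have h7 := field_small hK1 hDneg (l := l) (A := Q ^ 2) 𝒜 h2 κ hκ3
      have h8 : (𝒜.card : ℝ) ≤ T D * ((2 * κ + 1) * 33) := by
        have h7' := (Nat.cast_le (α := ℝ)).mpr h7
        push_cast at h7'
        exact h7'
      have h9 : (1 : ℝ) ≤ 32 * (Q : ℝ) ^ 2 / s := by
        rw [le_div_iff₀ hs0, one_mul]
        have h10 : s ^ 2 ≤ (32 * (Q : ℝ) ^ 2) ^ 2 := by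
          rw [hs2]
          have h11 : -(D : ℝ) ≤ 1024 * (Q : ℝ) ^ 4 := by exact_mod_cast hsm
          calc -(D : ℝ) ≤ 1024 * (Q : ℝ) ^ 4 := h11
            _ = (32 * (Q : ℝ) ^ 2) ^ 2 := by ring
        exact (pow_le_pow_iff_left₀ hs0.le (by positivity) two_ne_zero).mp h10
      have h12 : (𝒜.card : ℝ) ≤ 3168 * (Q : ℝ) ^ 2 * (T D / s) := by
        calc (𝒜.card : ℝ) ≤ T D * ((2 * κ + 1) * 33) := h8
          _ ≤ T D * ((2 * (32 * (Q : ℝ) ^ 2 / s) + 32 * (Q : ℝ) ^ 2 / s) * 33) := by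
              have := hT1 D
              gcongr
          _ = 3168 * (Q : ℝ) ^ 2 * (T D / s) := by ring
      have := hT1 D
      calc (((G l Q L W a).filter (fun g => f g = D)).card : ℝ) ≤ 30 * (𝒜.card : ℝ) := h1'
        _ ≤ 30 * (3168 * (Q : ℝ) ^ 2 * (T D / s)) := by gcongr
        _ ≤ 30 * (T D - 1) + 95040 * (Q : ℝ) ^ 2 * (T D / s) := by
            have : 0 ≤ 30 * (T D - 1) := by linarith
            nlinarith
    · -- large discriminant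
      rw [not_le] at hsm
      have h5 := field_large hK1 hDneg (l := l) (N := 16 * Q ^ 2) (by nlinarith) (by
        rw [hK2]; push_cast
        calc 4 * (16 * (Q : ℤ) ^ 2 * (16 * (Q : ℤ) ^ 2)) = 1024 * (Q : ℤ) ^ 4 := by ring
          _ < -D := hsm) 𝒜 (by
        intro I hI
        obtain ⟨a, b, c, e⟩ := h2 I hI
        refine ⟨a, ?_, c, e⟩
        have : 1 ≤ Q ^ 2 := Nat.one_le_pow _ _ (by omega)
        omega)
      have h6 : (𝒜.card : ℝ) + 1 ≤ T D := by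
        have h5' := (Nat.cast_le (α := ℝ)).mpr h5
        push_cast at h5'
        exact h5'
      linarith
  calc ((Q ^ l / (48 * L ^ 2 * W) * (((PW Q W).card / 2).choose 2) *
      ((Ioc L (4 * L)).filter Nat.Prime).card : ℕ) : ℝ) ≤ ((G l Q L W a).card : ℝ) := by
        exact_mod_cast hlow
    _ = ∑ D ∈ 𝒟, (((G l Q L W a).filter (fun g => f g = D)).card : ℝ) := by
        rw [hfib]; push_cast; rfl
    _ ≤ ∑ D ∈ 𝒟, (30 * (T D - 1) + (if -D ≤ 1024 * (Q : ℤ) ^ 4 then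
          95040 * (Q : ℝ) ^ 2 * (T D / √|(D : ℝ)|) else 0)) := sum_le_sum hbound
    _ = _ := by
        rw [sum_add_distrib, ← mul_sum, ← sum_filter, ← mul_sum]

end Pool.Agent.T2h80.TL
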