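import Pool.Agent.T2h80.TL.Fin

set_option autoImplicit false

/-!
# A lower bound for the number of non-trivial `l`-torsion classes of imaginary quadratic fields

For odd `l ≥ 5` the number of pairs `(D, c)`, where `-X < D < 0` is a fundamental discriminant with
prescribed behaviour at finitely many primes and `c ≠ 1` is a class of `ℚ(√D)` with `c ^ l = 1`, is at
least `X ^ (1 / 2 + min (1 / 3) (2 / l) - ε)` for all large `X`, and at least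
`X ^ (1 / 2 + 2 / l - ε)` for arbitrarily large `X`.
-/

namespace Pool.Agent.T2h80.TL.OddLowerBound

open NumberField Finset Filter
open scoped Classical

/-- Let `S` be a finite set of primes, `D₀ ≠ 0` an integer, `l ≥ 5` odd and `ε > 0`.  For a negative
fundamental discriminant `D` let `K_D` be the quadratic field of discriminant `D`, and let `𝒟(X)` be
the set of fundamental discriminants `D` with `-X < D < 0` such that `D D₀` is a square in `ℚ_r` for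
all `r ∈ S`.  Then

* `∑_{D ∈ 𝒟(X)} (|Cl(K_D)[l]| - 1) ≥ X ^ (1 / 2 + min (1 / 3) (2 / l) - ε)` for all large `X`;
* `∑_{D ∈ 𝒟(X)} (|Cl(K_D)[l]| - 1) ≥ X ^ (1 / 2 + 2 / l - ε)` for arbitrarily large `X`. -/
theorem result (S : Finset ℕ) (hS : ∀ r ∈ S, r.Prime) (D₀ : ℤ) (hD₀ : D₀ ≠ 0)
    (l : ℕ) (hl : 5 ≤ l) (hodd : Odd l) (ε : ℝ) (hε : 0 < ε)
    (K : ℤ → Type) [∀ D, Field (K D)] [∀ D, NumberField (K D)]
    (hK : ∀ D : ℤ, D < 0 → ((D % 4 = 1 ∧ D ≠ 1 ∧ Squarefree D) ∨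
        (∃ m : ℤ, D = 4 * m ∧ (m % 4 = 2 ∨ m % 4 = 3) ∧ Squarefree m)) →
      Module.finrank ℚ (K D) = 2 ∧ discr (K D) = D) :
    (∀ᶠ X : ℕ in atTop, (X : ℝ) ^ (1 / 2 + min (1 / 3) (2 / (l : ℝ)) - ε) ≤
      ∑ D ∈ (Finset.Ioo (-(X : ℤ)) (0 : ℤ)).filter (fun D : ℤ =>
          ((D % 4 = 1 ∧ D ≠ 1 ∧ Squarefree D) ∨
            (∃ m : ℤ, D = 4 * m ∧ (m % 4 = 2 ∨ m % 4 = 3) ∧ Squarefree m)) ∧
          ∀ r ∈ S, ∀ [Fact r.Prime], IsSquare (((D * D₀ : ℤ)) : ℚ_[r])),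
        ((Nat.card {c : ClassGroup (𝓞 (K D)) // c ^ l = 1} : ℝ) - 1)) ∧
    (∃ᶠ X : ℕ in atTop, (X : ℝ) ^ (1 / 2 + 2 / (l : ℝ) - ε) ≤
      ∑ D ∈ (Finset.Ioo (-(X : ℤ)) (0 : ℤ)).filter (fun D : ℤ =>
          ((D % 4 = 1 ∧ D ≠ 1 ∧ Squarefree D) ∨
            (∃ m : ℤ, D = 4 * m ∧ (m % 4 = 2 ∨ m % 4 = 3) ∧ Squarefree m)) ∧
          ∀ r ∈ S, ∀ [Fact r.Prime], IsSquare (((D * D₀ : ℤ)) : ℚ_[r])),
        ((Nat.card {c : ClassGroup (𝓞 (K D)) // c ^ l = 1} : ℝ) - 1)) := by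
  have hK' : ∀ X : ℕ, ∀ D ∈ Pool.Agent.T2h80.TL.locF S D₀ X,
      Module.finrank ℚ (K D) = 2 ∧ discr (K D) = D := by
    intro X D hD
    rw [Pool.Agent.T2h80.TL.locF, mem_filter, mem_Ioo] at hD
    exact hK D hD.1.2 hD.2.1
  constructor
  · obtain ⟨X₀, h⟩ := Pool.Agent.T2h80.TL.all_large S hS D₀ hD₀ l hl hodd ε hε
    rw [eventually_atTop]
    exact ⟨X₀, fun X hX => h X hX K (hK' X)⟩
  · rw [frequently_atTop]
    intro X₁
    obtain ⟨X, hX, h⟩ := Pool.Agent.T2h80.TL.some_large S hS D₀ hD₀ l hl ε hε K hK' X₁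
    exact ⟨X, hX, h⟩

end Pool.Agent.T2h80.TL.OddLowerBound
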